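import Pool.Agent.H32.HallD.PiPart
import Pool.Agent.H32.HallD.CardSL

/-!
# HallR A: the monomial subgroups `Mon μ = D(μ) : r` of `SL_r`, `r` odd
-/

set_option autoImplicit false

open Matrix

namespace Pool.Agent.H32.HallR

open Pool.Agent.H32.HallD

variable {r : ℕ} {F : Type} [Field F]

/-- the special linear group of degree `r` -/
abbrev SLr (r : ℕ) (F : Type) [Field F] := SpecialLinearGroup (Fin r) F

/-- the matrix -/
def sm (A : SLr r F) : Matrix (Fin r) (Fin r) F := A.1

theorem sm_mul (A B : SLr r F) : sm (A * B) = sm A * sm B := rfl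

theorem sm_one : sm (1 : SLr r F) = 1 := rfl

theorem sm_inv_mul (A : SLr r F) : sm A⁻¹ * sm A = 1 := by
  rw [← sm_mul, inv_mul_cancel, sm_one]

theorem sm_mul_inv (A : SLr r F) : sm A * sm A⁻¹ = 1 := by
  rw [← sm_mul, mul_inv_cancel, sm_one]

theorem sm_inj {A B : SLr r F} (h : sm A = sm B) : A = B := Subtype.ext h

theorem sm_det (A : SLr r F) : (sm A).det = 1 := A.2

theorem sm_pow (A : SLr r F) (n : ℕ) : sm (A ^ n) = sm A ^ n := by
  induction n with
  | zero => rw [pow_zero, pow_zero, sm_one]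
  | succ n ih => rw [pow_succ, pow_succ, sm_mul, ih]

variable [NeZero r]

/-- the matrix with rows `d i e_{i+k}` -/
def mm (k : Fin r) (d : Fin r → F) : Matrix (Fin r) (Fin r) F := Matrix.of fun i j => if j = i + k then d i else 0

theorem mm_apply (k : Fin r) (d : Fin r → F) (i j : Fin r) : mm k d i j = if j = i + k then d i else 0 := rfl

theorem mm_mul (k l : Fin r) (d e : Fin r → F) : mm k d * mm l e = mm (k + l) (fun i => d i * e (i + k)) := by
  ext i j
  rw [Matrix.mul_apply, mm_apply]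
  rw [Finset.sum_eq_single (i + k)]
  · rw [mm_apply, mm_apply, if_pos rfl]
    by_cases h : j = i + k + l
    · rw [if_pos h, if_pos (by rw [h, add_assoc])]
    · rw [if_neg h, if_neg (by rw [← add_assoc]; exact h), mul_zero]
  · intro m _ hm
    rw [mm_apply, if_neg hm, zero_mul]
  · intro h
    exact absurd (Finset.mem_univ _) h

theorem mm_one : mm 0 (fun _ => (1 : F)) = (1 : Matrix (Fin r) (Fin r) F) := by
  ext i j
  rw [mm_apply, Matrix.one_apply, add_zero]
  by_cases h : i = j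
  · rw [if_pos h, if_pos h.symm]
  · rw [if_neg h, if_neg (fun h2 => h h2.symm)]

theorem mm_zero (d : Fin r → F) : mm 0 d = Matrix.diagonal d := by
  ext i j
  rw [mm_apply, Matrix.diagonal_apply, add_zero]
  by_cases h : i = j
  · rw [if_pos h, if_pos h.symm]
  · rw [if_neg h, if_neg (fun h2 => h h2.symm)]

theorem det_mm (hr : Odd r) (k : Fin r) (d : Fin r → F) : (mm k d).det = ∏ i, d i := by
  have h1 : mm k d = (Matrix.diagonal d).submatrix id (Equiv.addRight (-k)) := by
    ext i j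
    rw [mm_apply, Matrix.submatrix_apply, Matrix.diagonal_apply, id_eq]
    have h0 : (Equiv.addRight (-k)) j = j + -k := rfl
    rw [h0]
    by_cases h : j = i + k
    · rw [if_pos h, if_pos (by rw [h, add_neg_cancel_right])]
    · rw [if_neg h, if_neg (fun h2 => h (by rw [h2, neg_add_cancel_right]))]
  have h2 : Equiv.Perm.sign (Equiv.addRight (-k) : Equiv.Perm (Fin r)) = 1 := by
    have h3 : (Equiv.addRight (-k) : Equiv.Perm (Fin r)) ^ r = 1 := by
      have h6 : ∀ n : ℕ, (Equiv.addRight (-k) : Equiv.Perm (Fin r)) ^ n = Equiv.addRight (n • (-k)) := by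
        intro n
        induction n with
        | zero =>
          ext i
          simp
        | succ n ih =>
          ext i
          rw [pow_succ, Equiv.Perm.mul_apply, ih]
          show ((i + -k + n • (-k) : Fin r) : ℕ) = ((i + (n + 1) • (-k) : Fin r) : ℕ)
          rw [succ_nsmul', add_assoc]
      rw [h6]
      have h4 : r • (-k) = 0 := by
        have h5 := card_nsmul_eq_zero (x := -k)
        rw [Fintype.card_fin] at h5
        exact h5
      rw [h4]
      ext i
      simp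
    have h4 := congrArg Equiv.Perm.sign h3
    rw [map_pow, map_one] at h4
    rcases Int.units_eq_one_or (Equiv.Perm.sign (Equiv.addRight (-k) : Equiv.Perm (Fin r))) with h5 | h5
    · exact h5
    · rw [h5, hr.neg_one_pow] at h4
      exact absurd h4 (by decide)
  rw [h1, Matrix.det_permute', h2, Matrix.det_diagonal]
  simp

theorem mm_inj {k l : Fin r} {d e : Fin r → F} (hd : ∀ i, d i ≠ 0) (h : mm k d = mm l e) : k = l ∧ d = e := by
  have h1 : k = l := by
    have h2 := congrFun (congrFun h 0) (0 + k)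
    rw [mm_apply, mm_apply, if_pos rfl] at h2
    by_contra hkl
    rw [if_neg (by rw [zero_add, zero_add]; exact hkl)] at h2
    exact hd 0 h2
  refine ⟨h1, ?_⟩
  subst h1
  ext i
  have h2 := congrFun (congrFun h i) (i + k)
  rw [mm_apply, mm_apply, if_pos rfl, if_pos rfl] at h2
  exact h2

/-- the monomial group -/
def Mon (μ : Subgroup Fˣ) : Subgroup (SLr r F) where
  carrier := {A | ∃ (k : Fin r) (d : Fin r → Fˣ), (∀ i, d i ∈ μ) ∧ sm A = mm k (fun i => (d i : F))}
  mul_mem' := by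
    rintro A B ⟨k, d, hd, hA⟩ ⟨l, e, he, hB⟩
    refine ⟨k + l, fun i => d i * e (i + k), fun i => μ.mul_mem (hd i) (he _), ?_⟩
    rw [sm_mul, hA, hB, mm_mul]
    rfl
  one_mem' := ⟨0, fun _ => 1, fun _ => μ.one_mem, by rw [sm_one]; exact mm_one.symm⟩
  inv_mem' := by
    rintro A ⟨k, d, hd, hA⟩
    refine ⟨-k, fun i => (d (i + -k))⁻¹, fun i => μ.inv_mem (hd _), ?_⟩
    have h1 : sm A * mm (-k) (fun i => (((d (i + -k))⁻¹ : Fˣ) : F)) = 1 := by
      rw [hA, mm_mul, add_neg_cancel, ← mm_one]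
      congr 1
      ext i
      rw [add_neg_cancel_right]
      exact Units.mul_inv (d i)
    calc sm A⁻¹ = sm A⁻¹ * (sm A * mm (-k) (fun i => (((d (i + -k))⁻¹ : Fˣ) : F))) := by
          rw [h1, mul_one]
      _ = mm (-k) (fun i => (((d (i + -k))⁻¹ : Fˣ) : F)) := by
          rw [← mul_assoc, sm_inv_mul, one_mul]

theorem mem_Mon {μ : Subgroup Fˣ} {A : SLr r F} :
    A ∈ Mon μ ↔ ∃ (k : Fin r) (d : Fin r → Fˣ), (∀ i, d i ∈ μ) ∧ sm A = mm k (fun i => (d i : F)) := Iff.rfl

/-- the shift of a monomial matrix -/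
def Sh (k : Fin r) (A : SLr r F) : Prop := ∃ d : Fin r → Fˣ, sm A = mm k (fun i => (d i : F))

theorem Sh.mul {k l : Fin r} {A B : SLr r F} (hA : Sh k A) (hB : Sh l B) : Sh (k + l) (A * B) := by
  obtain ⟨d, hA⟩ := hA
  obtain ⟨e, hB⟩ := hB
  refine ⟨fun i => d i * e (i + k), ?_⟩
  rw [sm_mul, hA, hB, mm_mul]
  rfl

theorem Sh.mem {k : Fin r} {A : SLr r F} (hA : Sh k A) : A ∈ Mon (⊤ : Subgroup Fˣ) := by
  obtain ⟨d, hA⟩ := hA
  exact ⟨k, d, fun i => Subgroup.mem_top _, hA⟩

theorem Sh.of_mem {μ : Subgroup Fˣ} {A : SLr r F} (hA : A ∈ Mon μ) : ∃ k, Sh k A := by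
  obtain ⟨k, d, -, h⟩ := hA
  exact ⟨k, d, h⟩

theorem Sh.unique {k l : Fin r} {A : SLr r F} (h1 : Sh k A) (h2 : Sh l A) : k = l := by
  obtain ⟨d, h1⟩ := h1
  obtain ⟨e, h2⟩ := h2
  exact (mm_inj (fun i => Units.ne_zero _) (h1.symm.trans h2)).1

theorem sh_one : Sh 0 (1 : SLr r F) := ⟨fun _ => 1, by rw [sm_one]; exact mm_one.symm⟩

theorem Sh.inv {k : Fin r} {A : SLr r F} (hA : Sh k A) : Sh (-k) A⁻¹ := by
  obtain ⟨l, hl⟩ := Sh.of_mem ((Mon (⊤ : Subgroup Fˣ)).inv_mem hA.mem)
  have h1 := hA.mul hl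
  rw [mul_inv_cancel] at h1
  have h2 := h1.unique sh_one
  have h3 : l = -k := by
    rw [eq_neg_iff_add_eq_zero, add_comm]
    exact h2
  rw [← h3]
  exact hl

theorem Sh.pow {k : Fin r} {A : SLr r F} (hA : Sh k A) (n : ℕ) : Sh (n • k) (A ^ n) := by
  induction n with
  | zero =>
    rw [zero_smul, pow_zero]
    exact sh_one
  | succ n ih =>
    rw [succ_nsmul, pow_succ]
    exact ih.mul hA

/-- the diagonal group -/
def Dg (r : ℕ) [NeZero r] (F : Type) [Field F] : Subgroup (SLr r F) where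
  carrier := {A | Sh 0 A}
  mul_mem' := by
    intro A B hA hB
    have h := hA.mul hB
    rw [add_zero] at h
    exact h
  one_mem' := sh_one
  inv_mem' := by
    intro A hA
    have h := hA.inv
    rw [neg_zero] at h
    exact h

theorem Dg_comm {A B : SLr r F} (hA : A ∈ Dg r F) (hB : B ∈ Dg r F) : A * B = B * A := by
  obtain ⟨d, hA⟩ := hA
  obtain ⟨e, hB⟩ := hB
  apply sm_inj
  rw [sm_mul, sm_mul, hA, hB, mm_mul, mm_mul, add_zero]
  congr 1
  ext i
  rw [add_zero, mul_comm]

/-- powers of diagonal matrices -/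
theorem sm_pow_Dg {A : SLr r F} {d : Fin r → Fˣ} (h : sm A = mm 0 (fun i => (d i : F))) (n : ℕ) :
    sm (A ^ n) = mm 0 (fun i => (((d i) ^ n : Fˣ) : F)) := by
  induction n with
  | zero =>
    rw [pow_zero, sm_one, ← mm_one]
    congr 1
    ext i
    rw [pow_zero]
    rfl
  | succ n ih =>
    rw [pow_succ, sm_mul, ih, h, mm_mul, add_zero]
    congr 1
    ext i
    rw [add_zero, pow_succ]
    rfl

/-- the order of the monomial group -/
theorem card_Mon (hr : Odd r) [Finite F] (μ : Subgroup Fˣ) : Nat.card (Mon (r := r) μ) = r * Nat.card μ ^ (r - 1) := by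
  classical
  obtain ⟨n, rfl⟩ : ∃ n, r = n + 1 := ⟨r - 1, by have := NeZero.pos r; omega⟩
  have hdet : ∀ (k : Fin (n + 1)) (c : Fin n → μ), (mm k (fun i => ((Fin.cons ((∏ j, (c j : Fˣ))⁻¹) (fun j => (c j : Fˣ)) : Fin (n + 1) → Fˣ) i : F))).det = 1 := by
    intro k c
    rw [det_mm hr, Fin.prod_univ_succ]
    simp only [Fin.cons_zero, Fin.cons_succ]
    have h1 : (((∏ j, (c j : Fˣ))⁻¹ * ∏ j, (c j : Fˣ) : Fˣ) : F) = 1 := by
      rw [inv_mul_cancel]
      rfl
    rw [Units.val_mul, Units.coe_prod] at h1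
    exact h1
  have hmem : ∀ x : Fin (n + 1) × (Fin n → μ), (⟨mm x.1 _, hdet x.1 x.2⟩ : SLr (n + 1) F) ∈ Mon μ := by
    rintro ⟨k, c⟩
    refine ⟨k, Fin.cons ((∏ j, (c j : Fˣ))⁻¹) (fun j => (c j : Fˣ)), ?_, rfl⟩
    intro i
    refine Fin.cases ?_ (fun j => ?_) i
    · rw [Fin.cons_zero]
      exact μ.inv_mem (μ.prod_mem fun j _ => (c j).2)
    · rw [Fin.cons_succ]
      exact (c j).2
  have h1 : Nat.card (Fin (n + 1) × (Fin n → μ)) = Nat.card (Mon (r := n + 1) μ) := by
    refine Nat.card_congr (Equiv.ofBijective (fun x => (⟨_, hmem x⟩ : Mon μ)) ⟨?_, ?_⟩)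
    · rintro ⟨k, c⟩ ⟨l, c'⟩ h
      have h2 := congrArg (fun A : Mon (r := n + 1) μ => sm (A : SLr (n + 1) F)) h
      obtain ⟨h3, h4⟩ := mm_inj (fun i => Units.ne_zero _) h2
      have h7 : c = c' := by
        funext j
        have h5 := congrFun h4 j.succ
        apply Subtype.ext
        apply Units.ext
        simpa using h5
      have h8 : k = l := h3
      rw [h7, h8]
    · rintro ⟨A, k, d, hd, hA⟩
      refine ⟨(k, fun j => ⟨d j.succ, hd _⟩), ?_⟩
      apply Subtype.ext
      apply sm_inj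
      show mm k _ = sm A
      rw [hA]
      congr 1
      ext i
      have h2 := sm_det A
      rw [hA, det_mm hr, Fin.prod_univ_succ] at h2
      have h3 : (∏ j : Fin n, d j.succ) * d 0 = 1 := by
        apply Units.ext
        rw [Units.val_mul, Units.coe_prod, mul_comm]
        exact h2
      refine Fin.cases ?_ (fun j => ?_) i
      · show (((∏ j : Fin n, d j.succ)⁻¹ : Fˣ) : F) = d 0
        rw [inv_eq_of_mul_eq_one_right h3]
      · rfl
  rw [← h1, Nat.card_prod, Nat.card_eq_fintype_card (α := Fin (n + 1)), Fintype.card_fin, Nat.card_fun,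
    Nat.card_eq_fintype_card (α := Fin n), Fintype.card_fin, Nat.add_sub_cancel]

end Pool.Agent.H32.HallR
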