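import Pool.Agent.H32.HallR.A

/-!
# HallR B: the monomial group over the `π`-part is a Hall subgroup of `SL_r`
-/

set_option autoImplicit false

open Matrix

namespace Pool.Agent.H32.HallR

open Pool.Agent.H32.HallD

/-- the `q`-number -/
def qn (q j : ℕ) : ℕ := ∑ i ∈ Finset.range j, q ^ i

theorem qn_mul (c j : ℕ) : qn (c + 1) j * c + 1 = (c + 1) ^ j := geom_sum_mul_add c j

theorem qn_mul' (c j : ℕ) : qn (c + 1) j * c = (c + 1) ^ j - 1 := by
  rw [← qn_mul, Nat.add_sub_cancel]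

theorem qn_modEq {c t : ℕ} (h : t ∣ c) (j : ℕ) : qn (c + 1) j ≡ j [MOD t] := by
  unfold qn
  induction j with
  | zero => rfl
  | succ j ih =>
    rw [Finset.sum_range_succ]
    refine Nat.ModEq.add ih ?_
    have h1 : c + 1 ≡ 1 [MOD t] := by
      have h2 : c ≡ 0 [MOD t] := (Nat.modEq_zero_iff_dvd).mpr h
      have h3 := h2.add_right 1
      rwa [zero_add] at h3
    have h2 := h1.pow j
    rwa [one_pow] at h2

theorem not_dvd_qn {c t j : ℕ} (h : t ∣ c) (hj : 0 < j) (hjt : j < t) : ¬ t ∣ qn (c + 1) j := by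
  intro h1
  have h2 := (Nat.modEq_zero_iff_dvd.mpr h1).symm.trans (qn_modEq h j)
  have h3 := (Nat.modEq_zero_iff_dvd).mp h2.symm
  exact absurd (Nat.le_of_dvd hj h3) (by omega)

theorem not_sq_dvd_qn {c r : ℕ} (hr : 1 < r) (hodd : Odd r) (h : r ∣ c) : ¬ r ^ 2 ∣ qn (c + 1) r := by
  obtain ⟨b, rfl⟩ := h
  obtain ⟨s, hs⟩ := hodd
  have h1 : ∀ i : ℕ, ∃ k, (r * b + 1) ^ i = 1 + i * (r * b) + r ^ 2 * k := by
    intro i
    induction i with
    | zero => exact ⟨0, by simp⟩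
    | succ i ih =>
      obtain ⟨k, hk⟩ := ih
      refine ⟨k * (r * b + 1) + i * b * b, ?_⟩
      rw [pow_succ, hk]
      ring
  choose k hk using h1
  have h2 : qn (r * b + 1) r = r + r ^ 2 * (s * b + ∑ i ∈ Finset.range r, k i) := by
    have h3 : (∑ i ∈ Finset.range r, i) * 2 = r * (r - 1) := Finset.sum_range_id_mul_two r
    have h4 : ∑ i ∈ Finset.range r, i = r * s := by
      have h5 : r - 1 = s * 2 := by omega
      rw [h5, ← mul_assoc] at h3
      exact Nat.eq_of_mul_eq_mul_right (by norm_num) h3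
    unfold qn
    rw [Finset.sum_congr rfl (fun i _ => hk i), Finset.sum_add_distrib, Finset.sum_add_distrib, ← Finset.sum_mul, h4, ← Finset.mul_sum,
      Finset.sum_const, Finset.card_range, smul_eq_mul, mul_one]
    ring
  intro h3
  rw [h2, Nat.dvd_add_left (Dvd.intro _ rfl)] at h3
  have h4 := Nat.le_of_dvd (by omega) h3
  nlinarith

variable {r : ℕ} {F : Type} [Field F]

/-- the `π`-part of the multiplicative group -/
def muPi (π : Set ℕ) (F : Type) [Field F] : Subgroup Fˣ := piPart π ⊤ (fun x _ y _ => mul_comm x y)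

theorem mem_muPi {π : Set ℕ} {x : Fˣ} : x ∈ muPi π F ↔ PiNumber π (orderOf x) :=
  ⟨fun h => h.2, fun h => ⟨Subgroup.mem_top x, h⟩⟩

theorem card_muPi [Finite F] (π : Set ℕ) : ∃ m : ℕ, Nat.card (muPi π F) * m = Nat.card F - 1 ∧ PiNumber π (Nat.card (muPi π F)) ∧ PiPrimeNumber π m := by
  refine ⟨(muPi π F).index, ?_, card_piPart π _ _, ?_⟩
  · rw [Subgroup.card_mul_index, Nat.card_units]
  · have h1 := relIndex_piPart π (⊤ : Subgroup Fˣ) (fun x _ y _ => mul_comm x y)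
    rw [Subgroup.relIndex_top_right] at h1
    exact h1

theorem card_SLr [NeZero r] [Finite F] {c : ℕ} (hc : Nat.card F = c + 1) :
    Nat.card (SLr r F) = ((∏ i ∈ Finset.range r, (c + 1) ^ i) * ∏ i ∈ Finset.range r, qn (c + 1) (r - i)) * c ^ (r - 1) := by
  haveI : Fintype F := Fintype.ofFinite F
  have h1 := card_SL_mul (F := F) r
  have hq1 : 1 < Nat.card F := Finite.one_lt_card
  have hr0 := NeZero.pos r
  rw [card_GL_field, ← Nat.card_eq_fintype_card, hc, Nat.add_sub_cancel, Fin.prod_univ_eq_prod_range (fun i => (c + 1) ^ r - (c + 1) ^ i) r] at h1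
  have h2 : ∏ i ∈ Finset.range r, ((c + 1) ^ r - (c + 1) ^ i) = ∏ i ∈ Finset.range r, (((c + 1) ^ i * qn (c + 1) (r - i)) * c) := by
    refine Finset.prod_congr rfl fun i hi => ?_
    rw [Finset.mem_range] at hi
    rw [mul_assoc, qn_mul', Nat.mul_sub, ← pow_add, mul_one]
    congr 2
    omega
  rw [h2, Finset.prod_mul_distrib, Finset.prod_mul_distrib, Finset.prod_const, Finset.card_range] at h1
  have h3 : c ^ r = c ^ (r - 1) * c := by
    rw [← pow_succ]
    congr 1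
    omega
  rw [h3, ← mul_assoc] at h1
  exact Nat.eq_of_mul_eq_mul_right (by omega) h1

/-- the Hall property of the monomial group -/
theorem hall_Mon [NeZero r] [Finite F] (hr : r.Prime) (hr2 : r ≠ 2) {π : Set ℕ} (hrπ : r ∈ π)
    (hτ : ∀ t ∈ π, t.Prime → t ≠ r → t ∣ Nat.card (SLr r F) → r < t ∧ t ∣ Nat.card F - 1)
    (hrq : ¬ r ∣ Nat.card F) {i₀ : ℕ} (hi₀ : i₀ < r) (h1 : ∀ i < r, i ≠ i₀ → ¬ r ∣ qn (Nat.card F) (r - i))
    (h2 : ¬ r ^ 2 ∣ qn (Nat.card F) (r - i₀)) : IsHall π (Mon (r := r) (muPi π F)) := by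
  obtain ⟨m, hm, h3, h4⟩ := card_muPi (F := F) π
  have hq : 1 < Nat.card F := Finite.one_lt_card
  obtain ⟨c, hc⟩ : ∃ c, Nat.card F = c + 1 := ⟨Nat.card F - 1, by omega⟩
  have hodd : Odd r := hr.odd_of_ne_two hr2
  refine ⟨?_, ?_⟩
  · rw [card_Mon hodd]
    refine PiNumber.mul ?_ ?_
    · intro t ht hd
      rw [(Nat.prime_dvd_prime_iff_eq ht hr).mp hd]
      exact hrπ
    · intro t ht hd
      exact h3 t ht (ht.dvd_of_dvd_pow hd)
  · have h5 := Subgroup.card_mul_index (Mon (r := r) (muPi π F))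
    have h5' : (Mon (r := r) (muPi π F)).index ∣ Nat.card (SLr r F) := Subgroup.index_dvd_card _
    rw [card_Mon hodd, card_SLr hc] at h5
    rw [hc] at hm h1 h2 hrq
    rw [Nat.add_sub_cancel] at hm
    set μ := Nat.card (muPi π F) with hμ
    have hμ0 : 0 < μ := Nat.card_pos
    set P := ∏ i ∈ Finset.range r, (c + 1) ^ i with hP
    set Q := ∏ i ∈ Finset.range r, qn (c + 1) (r - i) with hQ
    have h6 : (Mon (r := r) (muPi π F)).index * r = (P * m ^ (r - 1)) * Q := by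
      have h7 : μ ^ (r - 1) * ((Mon (r := r) (muPi π F)).index * r) = μ ^ (r - 1) * ((P * m ^ (r - 1)) * Q) := by
        calc μ ^ (r - 1) * ((Mon (r := r) (muPi π F)).index * r) = r * μ ^ (r - 1) * (Mon (r := r) (muPi π F)).index := by ring
          _ = P * Q * c ^ (r - 1) := h5
          _ = P * Q * (μ * m) ^ (r - 1) := by rw [hm]
          _ = μ ^ (r - 1) * ((P * m ^ (r - 1)) * Q) := by rw [mul_pow]; ring
      exact Nat.eq_of_mul_eq_mul_left (by positivity) h7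
    intro t ht hd htπ
    have htm : ¬ t ∣ m := fun h => h4 t ht h htπ
    by_cases htr : t = r
    · subst htr
      have h7 : t ^ 2 ∣ (P * m ^ (t - 1)) * Q := by
        rw [← h6, pow_two]
        exact mul_dvd_mul_right hd t
      have hc1 : Nat.Coprime t P := by
        rw [hP]
        refine Nat.Coprime.prod_right fun i _ => Nat.Coprime.pow_right _ ?_
        exact (Nat.Prime.coprime_iff_not_dvd ht).mpr hrq
      have hc2 : Nat.Coprime t m := (Nat.Prime.coprime_iff_not_dvd ht).mpr htm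
      have hc3 : Nat.Coprime (t ^ 2) (P * m ^ (t - 1)) := Nat.Coprime.pow_left _ (Nat.Coprime.mul_right hc1 (Nat.Coprime.pow_right _ hc2))
      have h8 : t ^ 2 ∣ Q := hc3.dvd_of_dvd_mul_left h7
      rw [hQ, ← Finset.mul_prod_erase _ _ (Finset.mem_range.mpr hi₀)] at h8
      have hc4 : Nat.Coprime (t ^ 2) (∏ i ∈ (Finset.range t).erase i₀, qn (c + 1) (t - i)) := by
        refine Nat.Coprime.pow_left _ (Nat.Coprime.prod_right fun i hi => ?_)
        rw [Finset.mem_erase, Finset.mem_range] at hi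
        exact (Nat.Prime.coprime_iff_not_dvd ht).mpr (h1 i hi.2 hi.1)
      exact h2 (hc4.dvd_of_dvd_mul_right h8)
    · obtain ⟨h8, h9⟩ := hτ t htπ ht htr (hd.trans h5')
      rw [hc, Nat.add_sub_cancel] at h9
      have h7 : t ∣ (P * m ^ (r - 1)) * Q := by
        rw [← h6]
        exact Dvd.dvd.mul_right hd r
      rcases (Nat.Prime.dvd_mul ht).mp h7 with h10 | h10
      · rcases (Nat.Prime.dvd_mul ht).mp h10 with h11 | h11
        · rw [hP, Prime.dvd_finsetProd_iff ht.prime] at h11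
          obtain ⟨i, -, h12⟩ := h11
          have h13 := ht.dvd_of_dvd_pow h12
          have h14 : t ∣ 1 := (Nat.dvd_add_right h9).mp h13
          exact ht.one_lt.ne' (Nat.dvd_one.mp h14)
        · exact htm (ht.dvd_of_dvd_pow h11)
      · rw [hQ, Prime.dvd_finsetProd_iff ht.prime] at h10
        obtain ⟨i, hi, h12⟩ := h10
        rw [Finset.mem_range] at hi
        exact not_dvd_qn h9 (by omega) (by omega) h12

/-- the case of the large field -/
theorem hall_large [NeZero r] [Finite F] (hr : r.Prime) (hr2 : r ≠ 2) {π : Set ℕ} (hrπ : r ∈ π)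
    (hτ : ∀ t ∈ π, t.Prime → t ≠ r → t ∣ Nat.card (SLr r F) → r < t ∧ t ∣ Nat.card F - 1)
    (hrF : r ∣ Nat.card F - 1) : IsHall π (Mon (r := r) (muPi π F)) := by
  have hq : 1 < Nat.card F := Finite.one_lt_card
  obtain ⟨c, hc⟩ : ∃ c, Nat.card F = c + 1 := ⟨Nat.card F - 1, by omega⟩
  rw [hc, Nat.add_sub_cancel] at hrF
  refine hall_Mon hr hr2 hrπ hτ ?_ (i₀ := 0) hr.pos ?_ ?_
  · rw [hc]
    intro h
    have h14 : r ∣ 1 := (Nat.dvd_add_right hrF).mp h
    exact hr.one_lt.ne' (Nat.dvd_one.mp h14)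
  · intro i hi hi0
    rw [hc]
    exact not_dvd_qn hrF (by omega) (by omega)
  · rw [hc, Nat.sub_zero]
    exact not_sq_dvd_qn hr.one_lt (hr.odd_of_ne_two hr2) hrF

/-- the case of the small field -/
theorem hall_small [NeZero r] [Finite F] (hr : r.Prime) (hr2 : r ≠ 2) {π : Set ℕ} (hrπ : r ∈ π)
    (hτ : ∀ t ∈ π, t.Prime → t ≠ r → t ∣ Nat.card (SLr r F) → r < t ∧ t ∣ Nat.card F - 1)
    (hrq : ¬ r ∣ Nat.card F) (h1 : ∀ i, 0 < i → i < r - 1 → ¬ r ∣ Nat.card F ^ i - 1) (h2 : ¬ r ^ 2 ∣ Nat.card F ^ (r - 1) - 1) :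
    IsHall π (Mon (r := r) (muPi π F)) := by
  have hq : 1 < Nat.card F := Finite.one_lt_card
  have hr3 : 3 ≤ r := by
    have := hr.two_le
    omega
  obtain ⟨c, hc⟩ : ∃ c, Nat.card F = c + 1 := ⟨Nat.card F - 1, by omega⟩
  have h3 : ∀ j, r ∣ qn (Nat.card F) j → r ∣ Nat.card F ^ j - 1 := by
    intro j hj
    rw [hc] at hj ⊢
    rw [← qn_mul']
    exact Dvd.dvd.mul_right hj c
  refine hall_Mon hr hr2 hrπ hτ hrq (i₀ := 1) (by omega) ?_ ?_
  · intro i hi hi0 hd
    have h4 := h3 _ hd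
    by_cases hi1 : i = 0
    · subst hi1
      rw [Nat.sub_zero] at h4
      have h5 := h1 1 one_pos (by omega)
      rw [pow_one] at h5
      apply h5
      haveI : Fact r.Prime := ⟨hr⟩
      have h6 : ((Nat.card F : ℕ) : ZMod r) ^ r = Nat.card F := ZMod.pow_card _
      have h7 : ((Nat.card F ^ r - 1 : ℕ) : ZMod r) = 0 := (ZMod.natCast_eq_zero_iff _ _).mpr h4
      rw [← ZMod.natCast_eq_zero_iff, Nat.cast_sub hq.le]
      rw [Nat.cast_sub (Nat.one_le_pow _ _ (by omega)), Nat.cast_pow, h6] at h7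
      exact h7
    · exact h1 (r - i) (by omega) (by omega) h4
  · intro h4
    apply h2
    rw [hc] at h4 ⊢
    rw [← qn_mul']
    exact Dvd.dvd.mul_right h4 c

/-- diagonal `π`-elements -/
theorem mem_Mon_of_Dg [NeZero r] {π : Set ℕ} {A : SLr r F} (hA : A ∈ Dg r F) (h : PiNumber π (orderOf A)) : A ∈ Mon (muPi π F) := by
  obtain ⟨d, hd⟩ := hA
  refine ⟨0, d, ?_, hd⟩
  intro i
  rw [mem_muPi]
  refine h.of_dvd (orderOf_dvd_of_pow_eq_one ?_)
  have h1 := sm_pow_Dg hd (orderOf A)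
  rw [pow_orderOf_eq_one, sm_one, ← mm_one] at h1
  obtain ⟨-, h2⟩ := mm_inj (fun _ => one_ne_zero) h1
  exact Units.ext (congrFun h2 i).symm

theorem pi_order {π : Set ℕ} {G : Type*} [Group G] [Finite G] {M : Subgroup G} (hM : PiSubgroup π M) {x : G} (hx : x ∈ M) : PiNumber π (orderOf x) := by
  refine PiNumber.of_dvd hM ?_
  have h1 := orderOf_dvd_natCard (⟨x, hx⟩ : M)
  rwa [← Subgroup.orderOf_coe] at h1

/-- the `π'`-part as a power -/
theorem exists_part [Finite F] (hr : r.Prime) {π : Set ℕ} (hrπ : r ∈ π) : ∃ N : ℕ, (∀ x : Fˣ, x * (x ^ N)⁻¹ ∈ muPi π F) ∧ ∀ x : Fˣ, r.Coprime (orderOf (x ^ N)) := by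
  obtain ⟨m, hm, h1, h2⟩ := card_muPi (F := F) π
  set μ := Nat.card (muPi π F) with hμ
  have hco : Nat.Coprime μ m := coprime_of_pi h1 h2
  obtain ⟨N, hN1, hN2⟩ := Nat.chineseRemainder hco 0 1
  have hx : ∀ x : Fˣ, x ^ (μ * m) = 1 := by
    intro x
    rw [hm, ← Nat.card_units]
    exact pow_card_eq_one'
  refine ⟨N, ?_, ?_⟩
  · intro x
    rw [mem_muPi]
    refine h1.of_dvd (orderOf_dvd_of_pow_eq_one ?_)
    rw [mul_pow, inv_pow, ← pow_mul, mul_comm N, pow_mul]
    have h4 : orderOf (x ^ μ) ∣ m := orderOf_dvd_of_pow_eq_one (by rw [← pow_mul]; exact hx x)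
    have h5 : (x ^ μ) ^ N = x ^ μ := by
      have h6 : (x ^ μ) ^ N = (x ^ μ) ^ 1 := pow_eq_pow_iff_modEq.mpr (hN2.of_dvd h4)
      rw [h6, pow_one]
    rw [h5, mul_inv_cancel]
  · intro x
    have h4 : orderOf (x ^ N) ∣ m := by
      apply orderOf_dvd_of_pow_eq_one
      obtain ⟨j, hj⟩ := (Nat.modEq_zero_iff_dvd.mp hN1)
      rw [← pow_mul, hj, mul_right_comm, pow_mul, hx, one_pow]
    rw [Nat.Prime.coprime_iff_not_dvd hr]
    intro h5
    exact h2 r hr (h5.trans h4) hrπ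

end Pool.Agent.H32.HallR
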