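import Pool.Agent.H32.HallR.B

/-!
# HallR C: a `π`-subgroup of the full monomial group is conjugate to a subgroup of `Mon μ`, `μ` the `π`-part
-/

set_option autoImplicit false

open Matrix

namespace Pool.Agent.H32.HallR

open Pool.Agent.H32.HallD

variable {r : ℕ} [NeZero r]

theorem val_nsmul (n : ℕ) (k : Fin r) : (n • k : Fin r).val = (n * k.val) % r := by
  induction n with
  | zero =>
    rw [zero_smul, zero_mul, Nat.zero_mod]
    rfl
  | succ n ih =>
    rw [succ_nsmul, Fin.val_add, ih, Nat.mod_add_mod, Nat.succ_mul]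

theorem val_one (hr : 1 < r) : (1 : Fin r).val = 1 := by
  rw [Fin.val_one', Nat.mod_eq_of_lt hr]

theorem nsmul_val_one (hr : 1 < r) (k : Fin r) : k.val • (1 : Fin r) = k := by
  apply Fin.ext
  rw [val_nsmul, val_one hr, mul_one, Nat.mod_eq_of_lt k.isLt]

theorem val_add_one (hr : 1 < r) (i : Fin r) (h : i.val + 1 < r) : (i + 1 : Fin r).val = i.val + 1 := by
  rw [Fin.val_add, val_one hr, Nat.mod_eq_of_lt h]

theorem val_add_one' (hr : 1 < r) (i : Fin r) (h : i.val + 1 = r) : (i + 1 : Fin r).val = 0 := by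
  rw [Fin.val_add, val_one hr, h, Nat.mod_self]

theorem exists_nsmul_eq_one (hr : r.Prime) {k : Fin r} (hk : k ≠ 0) : ∃ n : ℕ, n • k = 1 := by
  have h1 : Nat.Coprime k.val r := by
    rw [Nat.coprime_comm, Nat.Prime.coprime_iff_not_dvd hr]
    intro h
    apply hk
    apply Fin.ext
    rw [Nat.eq_zero_of_dvd_of_lt h k.isLt]
    rfl
  obtain ⟨n, hn⟩ := Nat.exists_mul_mod_eq_one_of_coprime h1 hr.one_lt
  refine ⟨n, ?_⟩
  apply Fin.ext
  rw [val_nsmul, val_one hr.one_lt, mul_comm]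
  exact hn.2

variable {F : Type} [Field F]

/-- cyclic partial products -/
theorem exists_cocycle (hr : 1 < r) (E : Fin r → Fˣ) (hE : ∏ i, E i = 1) (l : Fˣ) :
    ∃ t : Fin r → Fˣ, (∀ i, t (i + 1) = t i * E i) ∧ ∏ i, t i = l ^ r * ∏ i : Fin r, ∏ n ∈ Finset.range i.val, (if h : n < r then E ⟨n, h⟩ else 1) := by
  set E' : ℕ → Fˣ := fun n => if h : n < r then E ⟨n, h⟩ else 1 with hE'
  have h1 : ∏ n ∈ Finset.range r, E' n = 1 := by
    rw [← hE, Finset.prod_range]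
    refine Finset.prod_congr rfl fun i _ => ?_
    rw [hE']
    simp only
    rw [dif_pos i.isLt]
  refine ⟨fun i => l * ∏ n ∈ Finset.range i.val, E' n, ?_, ?_⟩
  · intro i
    by_cases h : i.val + 1 < r
    · show l * ∏ n ∈ Finset.range (i + 1).val, E' n = l * (∏ n ∈ Finset.range i.val, E' n) * E i
      rw [val_add_one hr i h, Finset.prod_range_succ, mul_assoc]
      congr 2
      rw [hE']
      simp only
      rw [dif_pos i.isLt]
    · have h2 : i.val + 1 = r := by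
        have := i.isLt
        omega
      show l * ∏ n ∈ Finset.range (i + 1).val, E' n = l * (∏ n ∈ Finset.range i.val, E' n) * E i
      rw [val_add_one' hr i h2, Finset.range_zero, Finset.prod_empty, mul_one]
      rw [← h2, Finset.prod_range_succ] at h1
      have h3 : E' i.val = E i := by
        rw [hE']
        simp only
        rw [dif_pos i.isLt]
      rw [h3] at h1
      rw [mul_assoc, h1, mul_one]
  · rw [Finset.prod_mul_distrib, Finset.prod_const, Finset.card_univ, Fintype.card_fin]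

theorem conj_Mon [Finite F] (hr : r.Prime) (hr2 : r ≠ 2) {π : Set ℕ} (hrπ : r ∈ π) {M : Subgroup (SLr r F)} (hM : PiSubgroup π M)
    (hle : M ≤ Mon (⊤ : Subgroup Fˣ)) : ∃ t, M ≤ cj t (Mon (muPi π F)) := by
  have hodd : Odd r := hr.odd_of_ne_two hr2
  have hMD : ∀ x ∈ M, x ∈ Dg r F → x ∈ Mon (muPi π F) := fun x hx hxD => mem_Mon_of_Dg hxD (pi_order hM hx)
  by_cases hD : ∀ x ∈ M, x ∈ Dg r F
  · refine ⟨1, fun x hx => ?_⟩
    rw [mem_cj, inv_one, one_mul, mul_one]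
    exact hMD x hx (hD x hx)
  push Not at hD
  obtain ⟨g, hgM, hgD⟩ := hD
  obtain ⟨g1, hg1M, hg1⟩ : ∃ g1 ∈ M, Sh 1 g1 := by
    obtain ⟨k, hk⟩ := Sh.of_mem (hle hgM)
    have hk0 : k ≠ 0 := by
      rintro rfl
      exact hgD hk
    obtain ⟨n, hn⟩ := exists_nsmul_eq_one hr hk0
    refine ⟨g ^ n, M.pow_mem hgM n, ?_⟩
    rw [← hn]
    exact hk.pow n
  obtain ⟨d, hd⟩ := hg1
  have hdet : ∏ i, d i = 1 := by
    have h4 := sm_det g1
    rw [hd, det_mm hodd] at h4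
    apply Units.ext
    rw [Units.coe_prod]
    exact h4
  obtain ⟨N, hN1, hN2⟩ := exists_part (F := F) hr hrπ
  set E : Fin r → Fˣ := fun i => d i ^ N with hE
  have hEp : ∏ i, E i = 1 := by
    rw [hE]
    simp only
    rw [Finset.prod_pow, hdet, one_pow]
  obtain ⟨W, hW⟩ : ∃ W : Fˣ, W = ∏ i : Fin r, ∏ n ∈ Finset.range i.val, (if h : n < r then E ⟨n, h⟩ else 1) := ⟨_, rfl⟩
  obtain ⟨w0, hw0⟩ : ∃ w0 : Fˣ, W = w0 ^ N := by
    refine ⟨∏ i : Fin r, ∏ n ∈ Finset.range i.val, (if h : n < r then d ⟨n, h⟩ else 1), ?_⟩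
    rw [hW, ← Finset.prod_pow]
    refine Finset.prod_congr rfl fun i _ => ?_
    rw [← Finset.prod_pow]
    refine Finset.prod_congr rfl fun n _ => ?_
    by_cases h : n < r
    · rw [dif_pos h, dif_pos h]
    · rw [dif_neg h, dif_neg h, one_pow]
  have hco := hN2 w0
  rw [← hw0] at hco
  obtain ⟨j, hj⟩ := exists_pow_eq_self_of_coprime hco
  obtain ⟨t, ht1, ht2⟩ := exists_cocycle hr.one_lt E hEp ((W ^ j)⁻¹)
  rw [← hW] at ht2
  have htp : ∏ i, t i = 1 := by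
    rw [ht2, inv_pow, ← pow_mul, mul_comm j, pow_mul, hj, inv_mul_cancel]
  have hT : (mm 0 (fun i => (t i : F))).det = 1 := by
    rw [det_mm hodd]
    have h4 := congrArg Units.val htp
    rw [Units.coe_prod] at h4
    exact h4
  have hh : (mm 1 (fun i => ((d i * (d i ^ N)⁻¹ : Fˣ) : F))).det = 1 := by
    rw [det_mm hodd]
    have h4 : ∏ i, (d i * (d i ^ N)⁻¹) = 1 := by
      rw [Finset.prod_mul_distrib, Finset.prod_inv_distrib, hdet, one_mul]
      have h5 : ∏ i, d i ^ N = 1 := hEp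
      rw [h5, inv_one]
    have h5 := congrArg Units.val h4
    rw [Units.coe_prod] at h5
    exact h5
  obtain ⟨T, hTdef⟩ : ∃ T : SLr r F, sm T = mm 0 (fun i => (t i : F)) := ⟨⟨_, hT⟩, rfl⟩
  obtain ⟨h, hhdef⟩ : ∃ h : SLr r F, sm h = mm 1 (fun i => ((d i * (d i ^ N)⁻¹ : Fˣ) : F)) := ⟨⟨_, hh⟩, rfl⟩
  have hTD : T ∈ Dg r F := ⟨t, hTdef⟩
  have hhμ : h ∈ Mon (muPi π F) := ⟨1, fun i => d i * (d i ^ N)⁻¹, fun i => hN1 (d i), hhdef⟩
  have hstep : ∀ i, t i * d i = d i * (d i ^ N)⁻¹ * t (i + 1) := by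
    intro i
    rw [ht1 i]
    show t i * d i = d i * (d i ^ N)⁻¹ * (t i * d i ^ N)
    calc t i * d i = t i * d i * ((d i ^ N)⁻¹ * d i ^ N) := by rw [inv_mul_cancel, mul_one]
      _ = _ := by ac_rfl
  have hTg : T * g1 * T⁻¹ = h := by
    rw [mul_inv_eq_iff_eq_mul]
    apply sm_inj
    rw [sm_mul, sm_mul, hd, hTdef, hhdef, mm_mul, mm_mul, zero_add, add_zero]
    congr 1
    ext i
    rw [add_zero]
    exact congrArg Units.val (hstep i)
  have hpow : ∀ k : Fin r, ∃ c ∈ M, Sh k c ∧ T * c * T⁻¹ ∈ Mon (muPi π F) := by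
    intro k
    refine ⟨g1 ^ k.val, M.pow_mem hg1M _, ?_, ?_⟩
    · have h4 := Sh.pow (k := 1) ⟨d, hd⟩ k.val (A := g1)
      rw [nsmul_val_one hr.one_lt] at h4
      exact h4
    · have h4 : T * g1 ^ k.val * T⁻¹ = h ^ k.val := by
        rw [← hTg, conj_pow]
      rw [h4]
      exact (Mon _).pow_mem hhμ _
  refine ⟨T⁻¹, fun x hx => ?_⟩
  rw [mem_cj, inv_inv]
  obtain ⟨k, hk⟩ := Sh.of_mem (hle hx)
  obtain ⟨c, hc, hck, hcT⟩ := hpow k
  have hy : x * c⁻¹ ∈ Dg r F := by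
    have h4 := hk.mul hck.inv
    rw [add_neg_cancel] at h4
    exact h4
  have hyM : x * c⁻¹ ∈ M := M.mul_mem hx (M.inv_mem hc)
  have h5 : T * (x * c⁻¹) * T⁻¹ = x * c⁻¹ := by
    rw [Dg_comm hTD hy, mul_inv_cancel_right]
  have h6 : T * x * T⁻¹ = (x * c⁻¹) * (T * c * T⁻¹) := by
    rw [← h5]
    group
  rw [h6]
  exact (Mon _).mul_mem (hMD _ hyM hy) hcT

end Pool.Agent.H32.HallR
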