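import Pool.Agent.H32.HallR.C

/-!
# HallR D: a monomial matrix with a nontrivial shift has order dividing `r`; `π`-elements are diagonalisable
-/

set_option autoImplicit false

open Matrix

namespace Pool.Agent.H32.HallR

open Pool.Agent.H32.HallD

variable {r : ℕ} [NeZero r] {F : Type} [Field F]

theorem sm_pow_shift {k : Fin r} {A : SLr r F} {d : Fin r → Fˣ} (h : sm A = mm k (fun i => (d i : F))) (n : ℕ) :
    sm (A ^ n) = mm (n • k) (fun i => ((∏ j ∈ Finset.range n, d (i + j • k) : Fˣ) : F)) := by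
  induction n with
  | zero =>
    rw [pow_zero, sm_one, ← mm_one, zero_smul]
    congr 1
  | succ n ih =>
    rw [pow_succ, sm_mul, ih, h, mm_mul, succ_nsmul]
    congr 1
    ext i
    rw [Finset.prod_range_succ, Units.val_mul]

theorem bij_shift (hr : r.Prime) {k : Fin r} (hk : k ≠ 0) (i : Fin r) : Function.Bijective (fun j : Fin r => i + j.val • k) := by
  rw [← Finite.surjective_iff_bijective]
  intro l
  obtain ⟨n, hn⟩ := exists_nsmul_eq_one hr hk
  refine ⟨⟨((l - i).val * n) % r, Nat.mod_lt _ hr.pos⟩, ?_⟩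
  show i + (((l - i).val * n) % r) • k = l
  have h1 : (((l - i).val * n) % r) • k = l - i := by
    have h2 : (((l - i).val * n) % r) • k = ((l - i).val * n) • k := by
      apply Fin.ext
      rw [val_nsmul, val_nsmul, Nat.mod_mul_mod]
    rw [h2, mul_smul, hn, nsmul_val_one hr.one_lt]
  rw [h1, add_sub_cancel]

theorem pow_of_shift (hr : r.Prime) (hr2 : r ≠ 2) {k : Fin r} {A : SLr r F} (h : Sh k A) (hk : k ≠ 0) : A ^ r = 1 := by
  obtain ⟨d, hd⟩ := h
  have hdet : ∏ i, d i = 1 := by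
    have h4 := sm_det A
    rw [hd, det_mm (hr.odd_of_ne_two hr2)] at h4
    apply Units.ext
    rw [Units.coe_prod]
    exact h4
  apply sm_inj
  rw [sm_pow_shift hd, sm_one, ← mm_one]
  have h1 : r • k = 0 := by
    apply Fin.ext
    rw [val_nsmul, Nat.mul_mod_right]
    rfl
  rw [h1]
  congr 1
  ext i
  have h2 : ∏ j ∈ Finset.range r, d (i + j • k) = 1 := by
    rw [Finset.prod_range (fun j => d (i + j • k)), ← hdet]
    exact (bij_shift hr hk i).prod_comp d
  rw [h2]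
  rfl

theorem pow_card_of_Mon [Finite F] (hr : r.Prime) (hr2 : r ≠ 2) (hrF : r ∣ Nat.card F - 1) {A : SLr r F} (h : A ∈ Mon (⊤ : Subgroup Fˣ)) :
    A ^ (Nat.card F - 1) = 1 := by
  obtain ⟨k, hk⟩ := Sh.of_mem h
  by_cases hk0 : k = 0
  · subst hk0
    obtain ⟨d, hd⟩ := hk
    apply sm_inj
    rw [sm_pow_Dg hd, sm_one, ← mm_one]
    congr 1
    ext i
    rw [← Nat.card_units, pow_card_eq_one']
    rfl
  · obtain ⟨m, hm⟩ := hrF
    rw [hm, pow_mul, pow_of_shift hr hr2 hk hk0, one_pow]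

theorem Mon_mono {μ ν : Subgroup Fˣ} (h : μ ≤ ν) : Mon (r := r) μ ≤ Mon ν := by
  rintro A ⟨k, d, hd, hA⟩
  exact ⟨k, d, fun i => h (hd i), hA⟩

/-- `π`-elements have order dividing `q - 1` -/
theorem pow_of_pi [Finite F] (hr : r.Prime) (hr2 : r ≠ 2) (hrF : r ∣ Nat.card F - 1) {π : Set ℕ} (hH : IsHall π (Mon (r := r) (muPi π F)))
    {x : SLr r F} (hx : PiNumber π (orderOf x)) : x ^ (Nat.card F - 1) = 1 := by
  rw [← orderOf_dvd_iff_pow_eq_one, Nat.dvd_iff_prime_pow_dvd_dvd]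
  intro p k hp hd
  by_cases hk : k = 0
  · rw [hk, pow_zero]
    exact one_dvd _
  have hpπ : p ∈ π := hx p hp ((dvd_pow_self p hk).trans hd)
  obtain ⟨m, hm⟩ := hd
  have hx0 : orderOf x ≠ 0 := (orderOf_pos x).ne'
  have hm0 : m ≠ 0 := by
    rintro rfl
    rw [mul_zero] at hm
    exact hx0 hm
  have hy : orderOf (x ^ m) = p ^ k := by
    rw [orderOf_pow_of_dvd hm0 (by rw [hm]; exact Dvd.intro_left _ rfl), hm, Nat.mul_div_cancel _ (Nat.pos_of_ne_zero hm0)]
  haveI : Fact p.Prime := ⟨hp⟩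
  have hpg : IsPGroup p (Subgroup.zpowers (x ^ m)) := by
    apply IsPGroup.of_card (n := k)
    rw [Nat.card_zpowers, hy]
  obtain ⟨g, hg⟩ := exists_cj_of_pgroup hp hpg (fun h => hH.index p hp h hpπ)
  have h1 := hg (Subgroup.mem_zpowers (x ^ m))
  rw [mem_cj] at h1
  have h2 := pow_card_of_Mon hr hr2 hrF (Mon_mono le_top h1)
  have h3 : g⁻¹ * x ^ m * g = g⁻¹ * x ^ m * g⁻¹⁻¹ := by rw [inv_inv]
  rw [h3, conj_pow, conj_eq_one_iff] at h2
  rw [← hy]
  exact orderOf_dvd_of_pow_eq_one h2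

end Pool.Agent.H32.HallR
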