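import Pool.Agent.H32.HallR.D

/-!
# HallR E: simultaneous diagonalisation
-/

set_option autoImplicit false

open Matrix

namespace Pool.Agent.H32.HallR

open Pool.Agent.H32.HallD

variable {r : ℕ} [NeZero r] {F : Type} [Field F]

omit [NeZero r] in
/-- the projections -/
theorem proj_eigen {n : ℕ} {X : Matrix (Fin r) (Fin r) F} (hX : X ^ n = 1) {μ : F} (hμ : μ ^ n = 1) (hμ0 : μ ≠ 0) (v : Fin r → F) :
    X *ᵥ (∑ k ∈ Finset.range n, μ ^ k • (X ^ k *ᵥ v)) = μ⁻¹ • ∑ k ∈ Finset.range n, μ ^ k • (X ^ k *ᵥ v) := by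
  have h1 := Finset.sum_range_succ (fun k => μ ^ k • (X ^ k *ᵥ v)) n
  have h2 := Finset.sum_range_succ' (fun k => μ ^ k • (X ^ k *ᵥ v)) n
  rw [h1, hX, hμ, pow_zero, pow_zero] at h2
  have h3 := add_right_cancel h2
  have h4 : μ • (X *ᵥ (∑ k ∈ Finset.range n, μ ^ k • (X ^ k *ᵥ v))) = ∑ k ∈ Finset.range n, μ ^ k • (X ^ k *ᵥ v) := by
    refine Eq.trans ?_ h3.symm
    rw [Matrix.mulVec_sum, Finset.smul_sum]
    refine Finset.sum_congr rfl fun k _ => ?_
    rw [Matrix.mulVec_smul, Matrix.mulVec_mulVec, smul_smul, ← pow_succ', ← pow_succ']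
  have h5 := congrArg (fun w => μ⁻¹ • w) h4
  rw [inv_smul_smul₀ hμ0] at h5
  exact h5

omit [NeZero r] in
theorem proj_sum [Finite F] (X : Matrix (Fin r) (Fin r) F) (v : Fin r → F) :
    v ∈ Submodule.span F (Set.range (fun μ : Fˣ => ∑ k ∈ Finset.range (Nat.card F - 1), (μ : F) ^ k • (X ^ k *ᵥ v))) := by
  classical
  haveI : Fintype F := Fintype.ofFinite F
  have hq : 1 < Nat.card F := Finite.one_lt_card
  have h1 : ∑ μ : Fˣ, ∑ k ∈ Finset.range (Nat.card F - 1), (μ : F) ^ k • (X ^ k *ᵥ v) = -v := by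
    rw [Finset.sum_comm, Finset.sum_eq_single 0]
    · rw [← Finset.sum_smul, FiniteField.sum_pow_units, if_pos (dvd_zero _), pow_zero, Matrix.one_mulVec, neg_smul, one_smul]
    · intro k hk hk0
      rw [Finset.mem_range] at hk
      rw [← Finset.sum_smul, FiniteField.sum_pow_units, if_neg, zero_smul]
      intro h
      rw [← Nat.card_eq_fintype_card] at h
      exact absurd (Nat.le_of_dvd (by omega) h) (by omega)
    · intro h
      exact absurd (Finset.mem_range.mpr (by omega)) h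
  have h2 : v = -∑ μ : Fˣ, ∑ k ∈ Finset.range (Nat.card F - 1), (μ : F) ^ k • (X ^ k *ᵥ v) := by
    rw [h1, neg_neg]
  rw [h2]
  refine Submodule.neg_mem _ (Submodule.sum_mem _ fun μ _ => Submodule.subset_span ⟨μ, ?_⟩)
  simp only
  rw [← h2]

/-- common eigenvectors span -/
theorem span_eigen [Finite F] (B : Finset (Matrix (Fin r) (Fin r) F)) (hc : ∀ x ∈ B, ∀ y ∈ B, x * y = y * x)
    (hp : ∀ x ∈ B, x ^ (Nat.card F - 1) = 1) :
    ⊤ ≤ Submodule.span F {v : Fin r → F | ∀ x ∈ B, ∃ μ : F, x *ᵥ v = μ • v} := by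
  classical
  induction B using Finset.induction_on with
  | empty =>
    intro v _
    exact Submodule.subset_span (fun x hx => absurd hx (Finset.notMem_empty x))
  | insert X B hX ih =>
    refine (ih (fun x hx y hy => hc x (Finset.mem_insert_of_mem hx) y (Finset.mem_insert_of_mem hy))
      (fun x hx => hp x (Finset.mem_insert_of_mem hx))).trans ?_
    rw [Submodule.span_le]
    intro v hv
    refine (Submodule.span_le.mpr ?_) (proj_sum X v)
    rintro w ⟨μ, rfl⟩
    apply Submodule.subset_span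
    intro y hy
    rcases Finset.mem_insert.mp hy with rfl | hy
    · refine ⟨(μ : F)⁻¹, proj_eigen (hp y (Finset.mem_insert_self _ _)) ?_ μ.ne_zero v⟩
      have h1 : μ ^ (Nat.card F - 1) = 1 := by
        rw [← Nat.card_units, pow_card_eq_one']
      have h2 := congrArg Units.val h1
      rwa [Units.val_pow_eq_pow_val] at h2
    · obtain ⟨c, hcv⟩ := hv y hy
      refine ⟨c, ?_⟩
      have hcom : Commute y X := hc y (Finset.mem_insert_of_mem hy) X (Finset.mem_insert_self _ _)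
      simp only
      rw [Matrix.mulVec_sum, Finset.smul_sum]
      refine Finset.sum_congr rfl fun k _ => ?_
      rw [Matrix.mulVec_smul, Matrix.mulVec_mulVec, (hcom.pow_right k).eq, ← Matrix.mulVec_mulVec, hcv, Matrix.mulVec_smul, smul_comm]

/-- a basis of common eigenvectors -/
theorem exists_eigenbasis [Finite F] {A : Subgroup (SLr r F)} (hA : ∀ x ∈ A, ∀ y ∈ A, x * y = y * x) (hp : ∀ x ∈ A, x ^ (Nat.card F - 1) = 1) :
    ∃ Q : Matrix (Fin r) (Fin r) F, Q.det ≠ 0 ∧ ∀ x ∈ A, ∃ d : Fin r → F, sm x * Q = Q * mm 0 d := by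
  classical
  haveI : Fintype A := Fintype.ofFinite A
  have hS := span_eigen (F := F) (Finset.univ.image (fun x : A => sm (x : SLr r F))) (by
    intro x hx y hy
    rw [Finset.mem_image] at hx hy
    obtain ⟨a, -, rfl⟩ := hx
    obtain ⟨b, -, rfl⟩ := hy
    rw [← sm_mul, ← sm_mul, hA a a.2 b b.2]) (by
    intro x hx
    rw [Finset.mem_image] at hx
    obtain ⟨a, -, rfl⟩ := hx
    rw [← sm_pow, hp a a.2, sm_one])
  set b := Module.Basis.ofSpan hS with hb
  set e := Module.Basis.indexEquiv b (Pi.basisFun F (Fin r)) with he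
  set b' := b.reindex e with hb'
  have hmem : ∀ j, ∀ x ∈ A, ∃ μ : F, sm x *ᵥ (b' j) = μ • (b' j) := by
    intro j x hx
    have h1 : b' j ∈ Set.range b := by
      rw [hb', Module.Basis.reindex_apply]
      exact ⟨_, rfl⟩
    have h2 := Module.Basis.ofSpan_subset hS h1
    exact h2 (sm x) (Finset.mem_image.mpr ⟨⟨x, hx⟩, Finset.mem_univ _, rfl⟩)
  refine ⟨(Pi.basisFun F (Fin r)).toMatrix b', ?_, ?_⟩
  · have h1 := (Pi.basisFun F (Fin r)).isUnit_det b'
    rw [Module.Basis.det_apply] at h1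
    exact h1.ne_zero
  · intro x hx
    choose μ hμ using fun j => hmem j x hx
    refine ⟨μ, ?_⟩
    ext i j
    rw [mm_zero, Matrix.mul_diagonal, Module.Basis.toMatrix_apply, Pi.basisFun_repr]
    have h1 := congrFun (hμ j) i
    rw [Pi.smul_apply, smul_eq_mul] at h1
    rw [mul_comm, ← h1]
    rfl

/-- from invertible matrices to `SL_r` -/
theorem to_SL (hodd : Odd r) {Q : Matrix (Fin r) (Fin r) F} (hQ : Q.det ≠ 0) :
    ∃ T : SLr r F, ∀ (x : SLr r F) (k : Fin r) (d : Fin r → F), sm x * Q = Q * mm k d → Sh k (T⁻¹ * x * T) := by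
  classical
  set δ : Fin r → F := fun i => if i = 0 then Q.det⁻¹ else 1 with hδ
  have hδ0 : ∀ i, δ i ≠ 0 := by
    intro i
    rw [hδ]
    simp only
    split_ifs
    · exact inv_ne_zero hQ
    · exact one_ne_zero
  have hdet : (Q * mm 0 δ).det = 1 := by
    rw [Matrix.det_mul, det_mm hodd]
    have h1 : ∏ i, δ i = Q.det⁻¹ := by
      rw [hδ, Finset.prod_ite_eq' Finset.univ (0 : Fin r) (fun _ => Q.det⁻¹), if_pos (Finset.mem_univ _)]
    rw [h1, mul_inv_cancel₀ hQ]
  obtain ⟨T, hT⟩ : ∃ T : SLr r F, sm T = Q * mm 0 δ := ⟨⟨_, hdet⟩, rfl⟩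
  refine ⟨T, fun x k d h => ?_⟩
  have h1 : mm k d * mm 0 δ = mm 0 δ * mm k (fun i => (δ i)⁻¹ * (d i * δ (i + k))) := by
    rw [mm_mul, mm_mul, add_zero, zero_add]
    congr 1
    ext i
    rw [add_zero, mul_inv_cancel_left₀ (hδ0 i)]
  have h2 : sm (T⁻¹ * x * T) = mm k (fun i => (δ i)⁻¹ * (d i * δ (i + k))) := by
    have h3 : sm x * sm T = sm T * mm k (fun i => (δ i)⁻¹ * (d i * δ (i + k))) := by
      rw [hT, ← mul_assoc, h, mul_assoc, h1, ← mul_assoc]
    rw [mul_assoc, sm_mul, sm_mul, h3, ← mul_assoc, sm_inv_mul, one_mul]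
  have h3 : ∏ i, ((δ i)⁻¹ * (d i * δ (i + k))) = 1 := by
    have h4 := sm_det (T⁻¹ * x * T)
    rw [h2, det_mm hodd] at h4
    exact h4
  have h4 : ∀ i, (δ i)⁻¹ * (d i * δ (i + k)) ≠ 0 := by
    intro i hi
    rw [Finset.prod_eq_zero (Finset.mem_univ i) hi] at h3
    exact zero_ne_one h3
  exact ⟨fun i => Units.mk0 _ (h4 i), h2⟩

/-- a commutative subgroup of exponent dividing `q - 1` is conjugate to a diagonal one -/
theorem exists_diag [Finite F] (hodd : Odd r) {A : Subgroup (SLr r F)} (hA : ∀ x ∈ A, ∀ y ∈ A, x * y = y * x)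
    (hp : ∀ x ∈ A, x ^ (Nat.card F - 1) = 1) : ∃ T : SLr r F, ∀ x ∈ A, T⁻¹ * x * T ∈ Dg r F := by
  obtain ⟨Q, hQ, h⟩ := exists_eigenbasis hA hp
  obtain ⟨T, hT⟩ := to_SL hodd hQ
  refine ⟨T, fun x hx => ?_⟩
  obtain ⟨d, hd⟩ := h x hx
  exact hT x 0 d hd

end Pool.Agent.H32.HallR
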