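import Pool.Agent.H32.HallR.E

/-!
# HallR F: the action on the characters of a diagonal subgroup
-/

set_option autoImplicit false

open Matrix

namespace Pool.Agent.H32.HallR

open Pool.Agent.H32.HallD

variable {r : ℕ} [NeZero r] {F : Type} [Field F]

/-- the entries of `a g = g b` for diagonal `a`, `b` -/
theorem entry_eq {a b g : SLr r F} (ha : a ∈ Dg r F) (hb : b ∈ Dg r F) (h : a * g = g * b) (i j : Fin r) :
    sm a i i * sm g i j = sm g i j * sm b j j := by
  obtain ⟨d, hd⟩ := ha
  obtain ⟨e, he⟩ := hb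
  have h2 := congrArg sm h
  rw [sm_mul, sm_mul] at h2
  have h3 := congrFun (congrFun h2 i) j
  rw [Matrix.mul_apply, Matrix.mul_apply] at h3
  rw [Finset.sum_eq_single i, Finset.sum_eq_single j] at h3
  · exact h3
  · intro m _ hm
    rw [he, mm_apply, add_zero, if_neg (fun h4 => hm h4.symm), mul_zero]
  · intro h4
    exact absurd (Finset.mem_univ _) h4
  · intro m _ hm
    rw [hd, mm_apply, add_zero, if_neg hm, zero_mul]
  · intro h4
    exact absurd (Finset.mem_univ _) h4

omit [NeZero r] in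
theorem exists_col (g : SLr r F) (j : Fin r) : ∃ i, sm g i j ≠ 0 := by
  by_contra hc
  push Not at hc
  have h1 := Matrix.det_eq_zero_of_column_eq_zero j hc
  rw [sm_det] at h1
  exact one_ne_zero h1

omit [NeZero r] in
theorem exists_row (g : SLr r F) (i : Fin r) : ∃ j, sm g i j ≠ 0 := by
  by_contra hc
  push Not at hc
  have h1 := Matrix.det_eq_zero_of_row_eq_zero i hc
  rw [sm_det] at h1
  exact one_ne_zero h1

/-- two diagonal matrices with the same entries -/
theorem Dg_ext {a b : SLr r F} (ha : a ∈ Dg r F) (hb : b ∈ Dg r F) (h : ∀ i, sm a i i = sm b i i) : a = b := by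
  obtain ⟨d, hd⟩ := ha
  obtain ⟨e, he⟩ := hb
  apply sm_inj
  ext i j
  by_cases hij : j = i
  · subst hij
    exact h j
  · rw [hd, he, mm_apply, mm_apply, add_zero, if_neg hij, if_neg hij]

/-- commuting with a diagonal matrix -/
theorem comm_of_entries {a g : SLr r F} (ha : a ∈ Dg r F) (h : ∀ i j, sm g i j ≠ 0 → sm a i i = sm a j j) : g * a = a * g := by
  obtain ⟨d, hd⟩ := ha
  apply sm_inj
  rw [sm_mul, sm_mul]
  ext i j
  rw [Matrix.mul_apply, Matrix.mul_apply, Finset.sum_eq_single j, Finset.sum_eq_single i]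
  · by_cases hg : sm g i j = 0
    · rw [hg, zero_mul, mul_zero]
    · rw [h i j hg, mul_comm]
  · intro m _ hm
    rw [hd, mm_apply, add_zero, if_neg hm, zero_mul]
  · intro h4
    exact absurd (Finset.mem_univ _) h4
  · intro m _ hm
    rw [hd, mm_apply, add_zero, if_neg (fun h4 => hm h4.symm), mul_zero]
  · intro h4
    exact absurd (Finset.mem_univ _) h4

section

variable {M A : Subgroup (SLr r F)} (hn : ∀ g ∈ M, ∀ a ∈ A, g⁻¹ * a * g ∈ A)

/-- the action on functions -/
@[reducible] def act : MulAction M (A → F) where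
  smul g φ := fun a => φ ⟨(g : SLr r F)⁻¹ * a * g, hn g g.2 a a.2⟩
  one_smul φ := by
    funext a
    apply congrArg φ
    apply Subtype.ext
    show ((1 : M) : SLr r F)⁻¹ * a * ((1 : M) : SLr r F) = a
    rw [OneMemClass.coe_one, inv_one, one_mul, mul_one]
  mul_smul g h φ := by
    funext a
    apply congrArg φ
    apply Subtype.ext
    show ((g * h : M) : SLr r F)⁻¹ * a * ((g * h : M) : SLr r F) = (h : SLr r F)⁻¹ * ((g : SLr r F)⁻¹ * a * g) * h
    rw [Subgroup.coe_mul, _root_.mul_inv_rev]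
    simp only [mul_assoc]

/-- the characters -/
def ch (A : Subgroup (SLr r F)) (i : Fin r) : A → F := fun a => sm (a : SLr r F) i i

include hn in
theorem act_ch (hA : A ≤ Dg r F) (g : M) (j : Fin r) : ∃ i, ch A i = fun a : A => ch A j ⟨(g : SLr r F)⁻¹ * a * g, hn g g.2 a a.2⟩ := by
  obtain ⟨i, hi⟩ := exists_col (g : SLr r F) j
  refine ⟨i, ?_⟩
  funext a
  have h1 := entry_eq (hA a.2) (hA (hn g g.2 a a.2)) (g := (g : SLr r F)) (by group) i j
  rw [mul_comm] at h1
  exact mul_left_cancel₀ hi h1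

include hn in
/-- the dichotomy -/
theorem dich [Finite F] (hr : r.Prime) (hA : A ≤ Dg r F) (hp : ∀ t : ℕ, t.Prime → t ∣ Nat.card M → r ≤ t) :
    (∀ g ∈ M, ∀ a ∈ A, g * a = a * g) ∨
    ((∀ i j, ∃ g ∈ M, ∀ a ∈ A, sm a i i = sm (g⁻¹ * a * g) j j) ∧ Function.Injective (ch A)) := by
  letI := act hn
  have hsub : ∀ j, MulAction.orbit M (ch A j) ⊆ Set.range (ch A) := by
    rintro j φ ⟨g, rfl⟩
    obtain ⟨i, hi⟩ := act_ch hn hA g j
    exact ⟨i, hi⟩
  have hrange : Nat.card (Set.range (ch A)) ≤ r := by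
    have h1 := Finite.card_range_le (ch A)
    rwa [Nat.card_eq_fintype_card (α := Fin r), Fintype.card_fin] at h1
  have hdvd : ∀ j, Nat.card (MulAction.orbit M (ch A j)) ∣ Nat.card M := by
    intro j
    have h1 := Nat.card_congr (MulAction.orbitProdStabilizerEquivGroup M (ch A j))
    rw [Nat.card_prod] at h1
    exact ⟨_, h1.symm⟩
  have hle : ∀ j, Nat.card (MulAction.orbit M (ch A j)) ≤ Nat.card (Set.range (ch A)) := fun j => Nat.card_mono (Set.finite_range _) (hsub j)
  by_cases h1 : ∀ j, Nat.card (MulAction.orbit M (ch A j)) = 1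
  · left
    intro g hg a ha
    have hfix : ∀ j, sm ((g : SLr r F)⁻¹ * a * g) j j = sm a j j := by
      intro j
      have h2 : Subsingleton (MulAction.orbit M (ch A j)) := (Nat.card_eq_one_iff_unique.mp (h1 j)).1
      have h3 : (⟨g, hg⟩ : M) • ch A j = ch A j := by
        have h4 := h2.allEq ⟨_, ⟨(⟨g, hg⟩ : M), rfl⟩⟩ ⟨_, MulAction.mem_orbit_self (ch A j)⟩
        exact congrArg Subtype.val h4
      exact congrFun h3 ⟨a, ha⟩
    apply comm_of_entries (hA ha)
    intro i j hij
    have h2 := entry_eq (hA ha) (hA (hn g hg a ha)) (g := g) (by group) i j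
    rw [mul_comm] at h2
    rw [← hfix j]
    exact mul_left_cancel₀ hij h2
  · right
    push Not at h1
    obtain ⟨k, hk⟩ := h1
    obtain ⟨t, ht, htd⟩ := Nat.exists_prime_and_dvd hk
    have h2 := hp t ht (htd.trans (hdvd k))
    haveI : Finite (MulAction.orbit M (ch A k)) := ((Set.finite_range (ch A)).subset (hsub k)).to_subtype
    have hpos : 0 < Nat.card (MulAction.orbit M (ch A k)) := by
      haveI : Nonempty (MulAction.orbit M (ch A k)) := ⟨⟨_, MulAction.mem_orbit_self _⟩⟩
      exact Nat.card_pos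
    have h3 := Nat.le_of_dvd hpos htd
    have h4 := hle k
    have hcard : Nat.card (Set.range (ch A)) = r := le_antisymm hrange (by omega)
    have heq : MulAction.orbit M (ch A k) = Set.range (ch A) := by
      apply Set.eq_of_subset_of_ncard_le (hsub k) _ (Set.finite_range _)
      show Nat.card _ ≤ Nat.card _
      omega
    refine ⟨?_, ?_⟩
    · intro i j
      have hi : ch A i ∈ MulAction.orbit M (ch A k) := by
        rw [heq]
        exact ⟨i, rfl⟩
      have hj : ch A j ∈ MulAction.orbit M (ch A k) := by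
        rw [heq]
        exact ⟨j, rfl⟩
      have h5 : ch A i ∈ MulAction.orbit M (ch A j) := by
        rw [MulAction.orbit_eq_iff.mpr hj]
        exact hi
      obtain ⟨g, hg⟩ := h5
      refine ⟨g, g.2, fun a ha => ?_⟩
      exact (congrFun hg ⟨a, ha⟩).symm
    · have h5 : Nat.card (Fin r) = Nat.card (Set.range (ch A)) := by
        rw [hcard, Nat.card_eq_fintype_card, Fintype.card_fin]
      have h6 : Function.Surjective (Set.rangeFactorization (ch A)) := Set.rangeFactorization_surjective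
      have h7 := (Function.Surjective.bijective_of_nat_card_le h6 h5.le).1
      intro i j hij
      apply h7
      apply Subtype.ext
      exact hij

include hn in
/-- the index of the centraliser -/
theorem card_dich [Finite F] (hr : r.Prime) (hA : A ≤ Dg r F) (hp : ∀ t : ℕ, t.Prime → t ∣ Nat.card M → r ≤ t) :
    (∀ g ∈ M, ∀ a ∈ A, g * a = a * g) ∨
    ((∀ i j, ∃ g ∈ M, ∀ a ∈ A, sm a i i = sm (g⁻¹ * a * g) j j) ∧ Function.Injective (ch A) ∧
      ∀ C : Subgroup (SLr r F), (∀ g, g ∈ C ↔ g ∈ M ∧ ∀ a ∈ A, g * a = a * g) → Nat.card M = r * Nat.card C) := by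
  rcases dich hn hr hA hp with h | ⟨h1, h2⟩
  · exact Or.inl h
  refine Or.inr ⟨h1, h2, ?_⟩
  intro C hC
  letI := act hn
  have h3 := Nat.card_congr (MulAction.orbitProdStabilizerEquivGroup M (ch A 0))
  rw [Nat.card_prod] at h3
  have h4 : MulAction.orbit M (ch A 0) = Set.range (ch A) := by
    apply Set.Subset.antisymm
    · rintro φ ⟨g, rfl⟩
      obtain ⟨i, hi⟩ := act_ch hn hA g 0
      exact ⟨i, hi⟩
    · rintro φ ⟨i, rfl⟩
      obtain ⟨g, hg, hga⟩ := h1 i 0
      refine ⟨⟨g, hg⟩, ?_⟩
      funext a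
      exact (hga a a.2).symm
  have h5 : Nat.card (MulAction.orbit M (ch A 0)) = r := by
    rw [h4, Nat.card_range_of_injective h2, Nat.card_eq_fintype_card, Fintype.card_fin]
  rw [h5] at h3
  rw [← h3]
  congr 1
  -- the stabiliser
  set S : Subgroup (SLr r F) := (MulAction.stabilizer M (ch A 0)).map M.subtype with hS
  have hSM : S ≤ M := by
    rintro x ⟨y, -, rfl⟩
    exact y.2
  have hSfix : ∀ g ∈ S, ∀ a ∈ A, sm (g⁻¹ * a * g) 0 0 = sm a 0 0 := by
    rintro x ⟨y, hy, rfl⟩ a ha
    have h6 : y • ch A 0 = ch A 0 := hy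
    exact congrFun h6 ⟨a, ha⟩
  have h7 : ∀ g ∈ S, ∀ a ∈ A, g * a = a * g := by
    rcases dich (M := S) (A := A) (fun g hg a ha => hn g (hSM hg) a ha) hr hA
      (fun t ht hd => hp t ht (hd.trans (Subgroup.card_dvd_of_le hSM))) with h | ⟨h8, -⟩
    · exact h
    · exfalso
      have h9 : (1 : Fin r) ≠ 0 := by
        intro h10
        have h11 := congrArg Fin.val h10
        rw [val_one hr.one_lt] at h11
        exact one_ne_zero h11
      obtain ⟨g, hg, hga⟩ := h8 1 0
      apply h9
      apply h2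
      funext a
      show sm (a : SLr r F) 1 1 = sm (a : SLr r F) 0 0
      rw [hga a a.2, hSfix g hg a a.2]
  have h8 : S = C := by
    apply le_antisymm
    · intro x hx
      rw [hC]
      exact ⟨hSM hx, h7 x hx⟩
    · intro x hx
      rw [hC] at hx
      refine ⟨⟨x, hx.1⟩, ?_, rfl⟩
      show (⟨x, hx.1⟩ : M) • ch A 0 = ch A 0
      funext a
      apply congrArg (ch A 0)
      apply Subtype.ext
      show x⁻¹ * a * x = a
      rw [mul_assoc, ← hx.2 a a.2, inv_mul_cancel_left]
  rw [← h8, hS]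
  exact (Nat.card_congr ((MulAction.stabilizer M (ch A 0)).equivMapOfInjective M.subtype M.subtype_injective).toEquiv)

end

end Pool.Agent.H32.HallR
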