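import Pool.Agent.H32.HallD.PiPart

/-!
# HallR G: finite groups in which the centralisers of noncentral elements are commutative: the class equation
-/

set_option autoImplicit false

universe u

namespace Pool.Agent.H32.HallR

open Pool.Agent.H32.HallD

variable {L : Type u} [Group L]

/-- the centraliser of an element -/
abbrev ce (x : L) : Subgroup L := Subgroup.centralizer {x}

theorem mem_ce {x y : L} : y ∈ ce x ↔ y * x = x * y := Subgroup.mem_centralizer_singleton_iff

theorem self_mem_ce (x : L) : x ∈ ce x := mem_ce.mpr rfl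

/-- noncentral elements have commutative centralisers -/
def CA (L : Type u) [Group L] : Prop := ∀ x : L, x ∉ Subgroup.center L → ∀ y ∈ ce x, ∀ z ∈ ce x, y * z = z * y

theorem center_le_ce (x : L) : Subgroup.center L ≤ ce x := by
  intro z hz
  rw [mem_ce]
  exact (Subgroup.mem_center_iff.mp hz x).symm

theorem ce_eq (h : CA L) {x y : L} (hx : x ∉ Subgroup.center L) (hy : y ∉ Subgroup.center L) (hyx : y ∈ ce x) : ce y = ce x := by
  have hxy : x ∈ ce y := mem_ce.mpr (mem_ce.mp hyx).symm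
  apply le_antisymm
  · intro z hz
    rw [mem_ce]
    exact h y hy z hz x hxy
  · intro z hz
    rw [mem_ce]
    exact h x hx z hz y hyx

theorem ce_conj (g x : L) : ce (g * x * g⁻¹) = cj g (ce x) := by
  ext z
  rw [mem_cj, mem_ce, mem_ce]
  constructor
  · intro h
    have h1 : g⁻¹ * z * g * x = g⁻¹ * (z * (g * x * g⁻¹)) * g := by group
    rw [h1, h]
    group
  · intro h
    have h1 : z * (g * x * g⁻¹) = g * (g⁻¹ * z * g * x) * g⁻¹ := by group
    rw [h1, h]
    group

theorem conj_mem_center {g x : L} : g * x * g⁻¹ ∈ Subgroup.center L ↔ x ∈ Subgroup.center L := by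
  constructor
  · intro h
    have h1 := (inferInstance : (Subgroup.center L).Normal).conj_mem _ h g⁻¹
    have h2 : g⁻¹ * (g * x * g⁻¹) * g⁻¹⁻¹ = x := by group
    rwa [h2] at h1
  · intro h
    exact (inferInstance : (Subgroup.center L).Normal).conj_mem _ h g

theorem cj_one (A : Subgroup L) : cj 1 A = A := by
  ext z
  rw [mem_cj]
  simp

theorem cj_eq_iff {g : L} {A : Subgroup L} : cj g A = A ↔ g ∈ Subgroup.normalizer (A : Set L) := by
  rw [Subgroup.mem_normalizer_iff]
  constructor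
  · intro h z
    nth_rw 2 [← h]
    rw [mem_cj]
    have h1 : g⁻¹ * (g * z * g⁻¹) * g = z := by group
    rw [h1]
  · intro h
    ext z
    rw [mem_cj]
    have h1 := h (g⁻¹ * z * g)
    rw [h1]
    have h2 : g * (g⁻¹ * z * g) * g⁻¹ = z := by group
    rw [h2]

/-- the noncentral elements whose centraliser is conjugate to that of `x` -/
def cl (x : L) : Set L := {y | y ∉ Subgroup.center L ∧ ∃ g, ce y = cj g (ce x)}

theorem card_nc [Finite L] (A : Subgroup L) (hA : Subgroup.center L ≤ A) :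
    Nat.card {y : A // (y : L) ∉ Subgroup.center L} = Nat.card A - Nat.card (Subgroup.center L) := by
  classical
  haveI := Fintype.ofFinite A
  have h1 : Nat.card {y : A // (y : L) ∈ Subgroup.center L} = Nat.card (Subgroup.center L) :=
    Nat.card_congr ⟨fun y => ⟨y.1, y.2⟩, fun y => ⟨⟨y, hA y.2⟩, y.2⟩, fun y => rfl, fun y => rfl⟩
  rw [← h1, Nat.card_eq_fintype_card, Nat.card_eq_fintype_card, Nat.card_eq_fintype_card, Fintype.card_subtype_compl]

theorem card_cl [Finite L] (h : CA L) {x : L} (hx : x ∉ Subgroup.center L) :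
    Nat.card (cl x) * Nat.card (Subgroup.normalizer (ce x : Set L)) = Nat.card L * (Nat.card (ce x) - Nat.card (Subgroup.center L)) := by
  have hγ : ∀ z : cl x, ∃ g, ce (z : L) = cj g (ce x) := fun z => z.2.2
  choose γ hγ using hγ
  have hz1 : ∀ (g : L) (y : ce x), (y : L) ∉ Subgroup.center L → g * y * g⁻¹ ∈ cl x := by
    intro g y hy
    refine ⟨fun h => hy (conj_mem_center.mp h), g, ?_⟩
    rw [ce_conj g y, ce_eq h hx hy y.2]
  have e : L × {y : ce x // (y : L) ∉ Subgroup.center L} ≃ cl x × Subgroup.normalizer (ce x : Set L) :=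
    { toFun := fun a => (⟨a.1 * a.2.1 * a.1⁻¹, hz1 a.1 a.2.1 a.2.2⟩,
        ⟨(γ ⟨a.1 * a.2.1 * a.1⁻¹, hz1 a.1 a.2.1 a.2.2⟩)⁻¹ * a.1, by
          rw [← cj_eq_iff, ← cj_cj]
          have h1 : ce (a.1 * a.2.1 * a.1⁻¹ : L) = cj a.1 (ce x) := by
            rw [ce_conj a.1 a.2.1, ce_eq h hx a.2.2 a.2.1.2]
          rw [← h1, hγ ⟨a.1 * a.2.1 * a.1⁻¹, hz1 a.1 a.2.1 a.2.2⟩, cj_cj, inv_mul_cancel, cj_one]⟩)
      invFun := fun b => (γ b.1 * b.2, ⟨⟨(γ b.1 * b.2)⁻¹ * b.1 * (γ b.1 * b.2), by
          have h1 : (b.1 : L) ∈ cj (γ b.1) (ce x) := by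
            rw [← hγ b.1]
            exact self_mem_ce _
          have h2 : cj (γ b.1 * b.2) (ce x) = cj (γ b.1) (ce x) := by
            rw [← cj_cj, cj_eq_iff.mpr b.2.2]
          rw [← h2, mem_cj] at h1
          exact h1⟩, by
          show (γ b.1 * b.2 : L)⁻¹ * b.1 * (γ b.1 * b.2) ∉ Subgroup.center L
          intro h2
          apply b.1.2.1
          have h3 : (γ b.1 * b.2 : L)⁻¹ * b.1 * (γ b.1 * b.2) = (γ b.1 * b.2 : L)⁻¹ * b.1 * ((γ b.1 * b.2)⁻¹)⁻¹ := by rw [inv_inv]
          rw [h3, conj_mem_center] at h2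
          exact h2⟩)
      left_inv := by
        rintro ⟨g, ⟨⟨y, hy⟩, hy1⟩⟩
        ext
        · simp
        · simp [mul_assoc]
      right_inv := by
        rintro ⟨⟨z, hz⟩, ⟨n, hn⟩⟩
        have h1 : (γ ⟨z, hz⟩ * n) * ((γ ⟨z, hz⟩ * n)⁻¹ * z * (γ ⟨z, hz⟩ * n)) * (γ ⟨z, hz⟩ * n)⁻¹ = z := by group
        simp only [h1]
        ext
        · rfl
        · simp }
  have h1 := Nat.card_congr e
  rw [Nat.card_prod, Nat.card_prod, card_nc (ce x) (center_le_ce x)] at h1
  exact h1.symm

/-- conjugacy of centralisers -/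
def st (L : Type u) [Group L] : Setoid {x : L // x ∉ Subgroup.center L} where
  r x y := ∃ g, ce (x : L) = cj g (ce (y : L))
  iseqv :=
    { refl := fun x => ⟨1, (cj_one _).symm⟩
      symm := by
        rintro x y ⟨g, hg⟩
        refine ⟨g⁻¹, ?_⟩
        rw [hg, cj_cj, inv_mul_cancel, cj_one]
      trans := by
        rintro x y z ⟨g, hg⟩ ⟨k, hk⟩
        exact ⟨g * k, by rw [hg, hk, cj_cj]⟩ }

/-- the class equation -/
theorem sum_cl [Finite L] [Fintype (Quotient (st L))] :
    ∑ ω : Quotient (st L), Nat.card (cl ((ω.out : {x : L // x ∉ Subgroup.center L}) : L)) = Nat.card L - Nat.card (Subgroup.center L) := by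
  have h1 : Nat.card {x : L // x ∉ Subgroup.center L} = Nat.card L - Nat.card (Subgroup.center L) := by
    classical
    haveI := Fintype.ofFinite L
    have h2 : Nat.card {x : L // x ∈ Subgroup.center L} = Nat.card (Subgroup.center L) := rfl
    rw [← h2, Nat.card_eq_fintype_card, Nat.card_eq_fintype_card, Nat.card_eq_fintype_card, Fintype.card_subtype_compl]
  rw [← h1, ← Nat.card_congr (Equiv.sigmaFiberEquiv (Quotient.mk (st L))), Nat.card_sigma]
  refine Finset.sum_congr rfl fun ω _ => ?_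
  refine Nat.card_congr ⟨fun y => ⟨⟨y.1, y.2.1⟩, ?_⟩, fun y => ⟨y.1.1, y.1.2, ?_⟩, fun y => rfl, fun y => rfl⟩
  · have h2 : (st L).r ⟨y.1, y.2.1⟩ ω.out := y.2.2
    exact (Quotient.sound h2).trans (Quotient.out_eq ω)
  · have h2 : (st L).r y.1 ω.out := Quotient.exact (y.2.trans (Quotient.out_eq ω).symm)
    exact h2

end Pool.Agent.H32.HallR
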