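import Pool.Agent.H32.HallR.G

/-!
# HallR GA: the class equation in rational form; the arithmetic of the class equation
-/

set_option autoImplicit false

universe u

namespace Pool.Agent.H32.HallR

open Pool.Agent.H32.HallD

section

variable {L : Type u} [Group L]

/-- the ratio -/
noncomputable def be (x : L) : ℚ := (Nat.card (Subgroup.center L) : ℚ) / Nat.card (ce x)

/-- the index in the normaliser -/
noncomputable def nu (x : L) : ℚ := (Nat.card (Subgroup.normalizer (ce x : Set L)) : ℚ) / Nat.card (ce x)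

theorem sum_q [Finite L] [Fintype (Quotient (st L))] (h : CA L) :
    ∑ ω : Quotient (st L), (1 - be ((ω.out : {x : L // x ∉ Subgroup.center L}) : L)) / nu ((ω.out : {x : L // x ∉ Subgroup.center L}) : L)
      = 1 - (Nat.card (Subgroup.center L) : ℚ) / Nat.card L := by
  have hL : (0 : ℚ) < Nat.card L := by exact_mod_cast Nat.card_pos
  have h1 := sum_cl (L := L)
  have hZ : Nat.card (Subgroup.center L) ≤ Nat.card L := Nat.le_of_dvd Nat.card_pos (Subgroup.card_subgroup_dvd_card _)
  have h2 : ((∑ ω : Quotient (st L), Nat.card (cl ((ω.out : {x : L // x ∉ Subgroup.center L}) : L)) : ℕ) : ℚ)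
      = (Nat.card L : ℚ) - Nat.card (Subgroup.center L) := by
    rw [h1, Nat.cast_sub hZ]
  rw [Nat.cast_sum] at h2
  have h3 : (1 : ℚ) - (Nat.card (Subgroup.center L) : ℚ) / Nat.card L = ((Nat.card L : ℚ) - Nat.card (Subgroup.center L)) / Nat.card L := by
    field_simp
  rw [h3, ← h2, Finset.sum_div]
  refine Finset.sum_congr rfl fun ω _ => ?_
  have h4 := card_cl h ω.out.2
  set x : L := ((ω.out : {x : L // x ∉ Subgroup.center L}) : L) with hx
  have hA : (0 : ℚ) < Nat.card (ce x) := by exact_mod_cast Nat.card_pos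
  have hN : (0 : ℚ) < Nat.card (Subgroup.normalizer (ce x : Set L)) := by exact_mod_cast Nat.card_pos
  have h5 : Nat.card (Subgroup.center L) ≤ Nat.card (ce x) := Nat.le_of_dvd Nat.card_pos (Subgroup.card_dvd_of_le (center_le_ce x))
  have h6 : (Nat.card (cl x) : ℚ) * Nat.card (Subgroup.normalizer (ce x : Set L)) = Nat.card L * ((Nat.card (ce x) : ℚ) - Nat.card (Subgroup.center L)) := by
    rw [← Nat.cast_sub h5]
    exact_mod_cast h4
  unfold be nu
  rw [div_eq_div_iff (div_pos hN hA).ne' hL.ne']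
  field_simp
  linarith

theorem nonempty_st (hne : ∃ x y : L, x * y ≠ y * x) : Nonempty (Quotient (st L)) := by
  obtain ⟨x, y, hxy⟩ := hne
  refine ⟨Quotient.mk (st L) ⟨x, fun h => hxy (Subgroup.mem_center_iff.mp h y).symm⟩⟩

theorem be_gt [Finite L] (h : CA L) (hne : ∃ x y : L, x * y ≠ y * x) {x : L} (hx : x ∉ Subgroup.center L) :
    (Nat.card (Subgroup.center L) : ℚ) / Nat.card L < be x := by
  have hZ : (0 : ℚ) < Nat.card (Subgroup.center L) := by exact_mod_cast Nat.card_pos
  have hA : (0 : ℚ) < Nat.card (ce x) := by exact_mod_cast Nat.card_pos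
  have h1 : Nat.card (ce x) < Nat.card L := by
    have h2 : Nat.card (ce x) ≤ Nat.card L := Nat.le_of_dvd Nat.card_pos (Subgroup.card_subgroup_dvd_card _)
    refine lt_of_le_of_ne h2 fun h3 => ?_
    have h4 := Subgroup.eq_top_of_card_eq _ h3
    obtain ⟨y, z, hyz⟩ := hne
    apply hyz
    exact h x hx y (by rw [h4]; exact Subgroup.mem_top _) z (by rw [h4]; exact Subgroup.mem_top _)
  unfold be
  apply div_lt_div_of_pos_left hZ hA
  exact_mod_cast h1

theorem nu_le [Finite L] (x : L) : nu x * ((Nat.card (Subgroup.center L) : ℚ) / Nat.card L) ≤ be x := by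
  have hZ : (0 : ℚ) < Nat.card (Subgroup.center L) := by exact_mod_cast Nat.card_pos
  have hA : (0 : ℚ) < Nat.card (ce x) := by exact_mod_cast Nat.card_pos
  have hL : (0 : ℚ) < Nat.card L := by exact_mod_cast Nat.card_pos
  have h1 : (Nat.card (Subgroup.normalizer (ce x : Set L)) : ℚ) ≤ Nat.card L := by
    exact_mod_cast Nat.le_of_dvd Nat.card_pos (Subgroup.card_subgroup_dvd_card _)
  unfold be nu
  rw [div_mul_div_comm, div_le_div_iff₀ (mul_pos hA hL) hA]
  nlinarith [mul_pos hZ hA]

end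

/-- at most one class if all indices are one -/
theorem arith_one {Ω : Type*} [Fintype Ω] (hne : Nonempty Ω) (β ν : Ω → ℚ) (ε : ℚ) (h0 : 0 < ε) (hν : ∀ ω, ν ω = 1)
    (hβ : ∀ ω, β ω ≤ 1 / 2) (hlt : ∀ ω, ε < β ω) (hsum : ∑ ω, (1 - β ω) / ν ω = 1 - ε) : False := by
  classical
  obtain ⟨ω₁⟩ := hne
  have h1 : ∀ ω, (1 - β ω) / ν ω = 1 - β ω := fun ω => by rw [hν, div_one]
  rw [Finset.sum_congr rfl (fun ω _ => h1 ω), ← Finset.add_sum_erase _ _ (Finset.mem_univ ω₁)] at hsum
  by_cases h2 : (Finset.univ.erase ω₁).Nonempty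
  · obtain ⟨ω₂, hω₂⟩ := h2
    have h3 : 1 - β ω₂ ≤ ∑ ω ∈ Finset.univ.erase ω₁, (1 - β ω) :=
      Finset.single_le_sum (f := fun ω => 1 - β ω) (fun ω _ => by have := hβ ω; linarith) hω₂
    have := hβ ω₁
    have := hβ ω₂
    linarith
  · rw [Finset.not_nonempty_iff_eq_empty] at h2
    rw [h2, Finset.sum_empty] at hsum
    have := hlt ω₁
    linarith

/-- the arithmetic of the class equation -/
theorem arith_main {Ω : Type*} [Fintype Ω] (hne : Nonempty Ω) {r : ℕ} (hr : 3 ≤ r) (β ν : Ω → ℚ) (ε : ℚ) (h0 : 0 < ε)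
    (hν : ∀ ω, ν ω = 1 ∨ ν ω = r) (hβ1 : ∀ ω, β ω = 1 / r ∨ β ω ≤ 1 / (r + 2)) (hβr : ∀ ω, ν ω = r → β ω = 1 / r ∨ β ω ≤ 1 / (2 * r + 1))
    (hle : ∀ ω, ν ω * ε ≤ β ω) (hlt : ∀ ω, ε < β ω) (hsum : ∑ ω, (1 - β ω) / ν ω = 1 - ε) : ∃ ω, ν ω = r ∧ β ω = r * ε := by
  classical
  have hr' : (3 : ℚ) ≤ r := by exact_mod_cast hr
  have hr0 : (0 : ℚ) < r := by linarith
  have hr1 : 1 / (r : ℚ) ≤ 1 / 3 := one_div_le_one_div_of_le (by norm_num) hr'
  have hβ : ∀ ω, β ω ≤ 1 / r := by
    intro ω
    rcases hβ1 ω with h | h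
    · exact h.le
    · exact h.trans (one_div_le_one_div_of_le hr0 (by linarith))
  have hnn : ∀ ω, 0 ≤ (1 - β ω) / ν ω := by
    intro ω
    have h1 := hβ ω
    rcases hν ω with h | h <;> rw [h]
    · rw [div_one]
      linarith
    · exact div_nonneg (by linarith) hr0.le
  by_cases hA : ∃ ω₁, ν ω₁ = 1
  · obtain ⟨ω₁, hω₁⟩ := hA
    rw [← Finset.add_sum_erase _ _ (Finset.mem_univ ω₁), hω₁, div_one] at hsum
    have hs : ∑ ω ∈ Finset.univ.erase ω₁, (1 - β ω) / ν ω = β ω₁ - ε := by linarith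
    have hT : ∀ ω ∈ Finset.univ.erase ω₁, ν ω = r := by
      intro ω hω
      rcases hν ω with h | h
      · exfalso
        have h1 := Finset.single_le_sum (f := fun ω => (1 - β ω) / ν ω) (fun ω _ => hnn ω) hω
        rw [hs, h, div_one] at h1
        have := hβ ω
        have := hβ ω₁
        linarith
      · exact h
    have hTne : (Finset.univ.erase ω₁).Nonempty := by
      by_contra h2
      rw [Finset.not_nonempty_iff_eq_empty] at h2
      rw [h2, Finset.sum_empty] at hs
      have := hlt ω₁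
      linarith
    obtain ⟨ω₂, hω₂⟩ := hTne
    have h1 := Finset.single_le_sum (f := fun ω => (1 - β ω) / ν ω) (fun ω _ => hnn ω) hω₂
    have h2 := hT ω₂ hω₂
    rw [hs, h2] at h1
    have h3 : (1 - 1 / (r : ℚ)) / r ≤ (1 - β ω₂) / r := by
      apply div_le_div_of_nonneg_right _ hr0.le
      have := hβ ω₂
      linarith
    have h4 : β ω₁ = 1 / r := by
      rcases hβ1 ω₁ with h | h
      · exact h
      · exfalso
        have h5 : 1 / ((r : ℚ) + 2) ≤ (1 - 1 / (r : ℚ)) / r := by
          have h6 : (1 - 1 / (r : ℚ)) / r = (r - 1) / (r * r) := by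
            field_simp
          rw [h6, div_le_div_iff₀ (by linarith) (by positivity)]
          nlinarith
        linarith
    have h5 : ∑ ω ∈ Finset.univ.erase ω₁, (1 - β ω) = 1 - r * ε := by
      have h6 : ∑ ω ∈ Finset.univ.erase ω₁, (1 - β ω) / ν ω = (∑ ω ∈ Finset.univ.erase ω₁, (1 - β ω)) / r := by
        rw [Finset.sum_div]
        exact Finset.sum_congr rfl fun ω hω => by rw [hT ω hω]
      rw [h6, h4, div_eq_iff hr0.ne'] at hs
      rw [hs, sub_mul, one_div, inv_mul_cancel₀ hr0.ne', mul_comm ε]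
    rw [← Finset.add_sum_erase _ _ hω₂] at h5
    by_cases h6 : ((Finset.univ.erase ω₁).erase ω₂).Nonempty
    · obtain ⟨ω₃, hω₃⟩ := h6
      have h7 := Finset.single_le_sum (f := fun ω => 1 - β ω) (fun ω _ => by have := hβ ω; linarith) hω₃
      have := hβ ω₂
      have := hβ ω₃
      have := mul_pos hr0 h0
      linarith
    · rw [Finset.not_nonempty_iff_eq_empty] at h6
      rw [h6, Finset.sum_empty] at h5
      exact ⟨ω₂, h2, by linarith⟩
  · push Not at hA
    have hT : ∀ ω, ν ω = r := by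
      intro ω
      rcases hν ω with h | h
      · exact absurd h (hA ω)
      · exact h
    have h5 : ∑ ω, (1 - β ω) = r - r * ε := by
      have h6 : ∑ ω, (1 - β ω) / ν ω = (∑ ω, (1 - β ω)) / r := by
        rw [Finset.sum_div]
        exact Finset.sum_congr rfl fun ω _ => by rw [hT ω]
      rw [h6, div_eq_iff hr0.ne'] at hsum
      rw [hsum, sub_mul, one_mul, mul_comm ε]
    have h6 : ∑ ω, β ω = Fintype.card Ω - r + r * ε := by
      rw [Finset.sum_sub_distrib, Finset.sum_const, Finset.card_univ, nsmul_eq_mul, mul_one] at h5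
      linarith
    have hk1 : 1 ≤ Fintype.card Ω := Fintype.card_pos
    have hk1' : (1 : ℚ) ≤ Fintype.card Ω := by exact_mod_cast hk1
    have hle' : ∀ ω, r * ε ≤ β ω := fun ω => by
      have := hle ω
      rwa [hT ω] at this
    have h7 : (Fintype.card Ω : ℚ) * (r * ε) ≤ ∑ ω, β ω := by
      have h8 := Finset.card_nsmul_le_sum Finset.univ β (r * ε) (fun ω _ => hle' ω)
      rwa [nsmul_eq_mul, Finset.card_univ] at h8
    have h8 : ∑ ω, β ω ≤ (Fintype.card Ω : ℚ) * (1 / r) := by
      have h9 := Finset.sum_le_card_nsmul Finset.univ β (1 / r) (fun ω _ => hβ ω)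
      rwa [nsmul_eq_mul, Finset.card_univ] at h9
    have hre := mul_pos hr0 h0
    have hkr : r < Fintype.card Ω := by
      by_contra h9
      push Not at h9
      have h10 : (Fintype.card Ω : ℚ) ≤ r := by exact_mod_cast h9
      rcases h10.lt_or_eq with h11 | h11
      · have h12 : (Fintype.card Ω : ℚ) * (r * ε) ≥ r * ε := le_mul_of_one_le_left hre.le hk1'
        linarith
      · rw [h11] at h7 h6
        nlinarith
    have hkr' : Fintype.card Ω ≤ r + 1 := by
      by_contra h9
      push Not at h9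
      have h10 : (r : ℚ) + 2 ≤ Fintype.card Ω := by exact_mod_cast h9
      have h11 : (Fintype.card Ω : ℚ) - r < (Fintype.card Ω : ℚ) * (1 / r) := by linarith
      rw [mul_one_div, lt_div_iff₀ hr0] at h11
      nlinarith
    have hk : Fintype.card Ω = r + 1 := by omega
    have hk' : (Fintype.card Ω : ℚ) = r + 1 := by rw [hk]; push_cast; ring
    rw [hk'] at h6
    by_cases hall : ∀ ω, β ω = 1 / r
    · obtain ⟨ω⟩ := hne
      refine ⟨ω, hT ω, ?_⟩
      rw [Finset.sum_congr rfl (fun ω _ => hall ω), Finset.sum_const, Finset.card_univ, nsmul_eq_mul, hk'] at h6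
      have h9 : ((r : ℚ) + 1) * (1 / r) = 1 + 1 / r := by
        field_simp
      rw [hall ω]
      linarith
    · push Not at hall
      obtain ⟨ω₁, hω₁⟩ := hall
      have h9 : β ω₁ ≤ 1 / (2 * r + 1) := by
        rcases hβr ω₁ (hT ω₁) with h | h
        · exact absurd h hω₁
        · exact h
      have h10 : (Finset.univ.erase ω₁).card = r := by
        rw [Finset.card_erase_of_mem (Finset.mem_univ _), Finset.card_univ, hk]
        rfl
      rw [← Finset.add_sum_erase _ _ (Finset.mem_univ ω₁)] at h6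
      by_cases hall2 : ∀ ω ∈ Finset.univ.erase ω₁, β ω = 1 / r
      · refine ⟨ω₁, hT ω₁, ?_⟩
        rw [Finset.sum_congr rfl hall2, Finset.sum_const, h10, nsmul_eq_mul, mul_one_div_cancel hr0.ne'] at h6
        linarith
      · exfalso
        push Not at hall2
        obtain ⟨ω₂, hω₂, hne2⟩ := hall2
        have h11 : β ω₂ ≤ 1 / (2 * r + 1) := by
          rcases hβr ω₂ (hT ω₂) with h | h
          · exact absurd h hne2
          · exact h
        rw [← Finset.add_sum_erase _ _ hω₂] at h6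
        have h12 : ((Finset.univ.erase ω₁).erase ω₂).card = r - 1 := by
          rw [Finset.card_erase_of_mem hω₂, h10]
        have h13 := Finset.sum_le_card_nsmul ((Finset.univ.erase ω₁).erase ω₂) β (1 / r) (fun ω _ => hβ ω)
        rw [h12, nsmul_eq_mul, Nat.cast_sub (by omega), Nat.cast_one, sub_mul, mul_one_div_cancel hr0.ne', one_mul] at h13
        have h14 : 2 * (1 / (2 * (r : ℚ) + 1)) < 1 / r := by
          rw [mul_one_div, div_lt_div_iff₀ (by linarith) hr0]
          linarith
        linarith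

end Pool.Agent.H32.HallR
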