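import Pool.Agent.H32.HallR.GA

/-!
# HallR GB: minimal noncommutative subgroups; the fixed-point argument; a normal centraliser
-/

set_option autoImplicit false

universe u

namespace Pool.Agent.H32.HallR

open Pool.Agent.H32.HallD

section

variable {L : Type u} [Group L] [Finite L]

/-- the centre has index at least two in a centraliser -/
theorem exists_alpha {x : L} (hx : x ∉ Subgroup.center L) : ∃ α : ℕ, 2 ≤ α ∧ Nat.card (ce x) = α * Nat.card (Subgroup.center L) := by
  obtain ⟨α, hα⟩ := Subgroup.card_dvd_of_le (center_le_ce x)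
  refine ⟨α, ?_, by rw [hα, mul_comm]⟩
  by_contra h
  have h1 : α = 0 ∨ α = 1 := by omega
  rcases h1 with rfl | rfl
  · rw [mul_zero] at hα
    exact Nat.card_pos.ne' hα
  · rw [mul_one] at hα
    have h2 := Subgroup.eq_of_le_of_card_ge (center_le_ce x) hα.le
    apply hx
    rw [h2]
    exact self_mem_ce x

theorem be_of_alpha {x : L} {α : ℕ} (hα : Nat.card (ce x) = α * Nat.card (Subgroup.center L)) : be x = 1 / α := by
  have hZ : (0 : ℚ) < Nat.card (Subgroup.center L) := by exact_mod_cast Nat.card_pos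
  unfold be
  rw [hα, Nat.cast_mul, ← div_div, div_right_comm, div_self hZ.ne']

/-- a finite noncommutative group all whose proper subgroups are commutative has a normal noncentral centraliser -/
theorem exists_normal_of_min (hmin : ∀ K : Subgroup L, K ≠ ⊤ → ∀ y ∈ K, ∀ z ∈ K, y * z = z * y) (hne : ∃ x y : L, x * y ≠ y * x) :
    ∃ x : L, x ∉ Subgroup.center L ∧ (∀ g, ∀ a ∈ ce x, g⁻¹ * a * g ∈ ce x) ∧ ∀ y ∈ ce x, ∀ z ∈ ce x, y * z = z * y := by
  classical
  have hCA : CA L := by
    intro x hx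
    apply hmin
    intro h
    apply hx
    rw [Subgroup.mem_center_iff]
    intro g
    have h1 : g ∈ ce x := by rw [h]; exact Subgroup.mem_top _
    exact mem_ce.mp h1
  by_contra hcon
  push Not at hcon
  have hnorm : ∀ x : L, x ∉ Subgroup.center L → nu x = 1 := by
    intro x hx
    have hA : (0 : ℚ) < Nat.card (ce x) := by exact_mod_cast Nat.card_pos
    have h1 : Subgroup.normalizer (ce x : Set L) ≠ ⊤ := by
      intro h
      obtain ⟨y, hy, z, hz, hyz⟩ := hcon x hx (by
        intro g a ha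
        have h2 : g⁻¹ ∈ Subgroup.normalizer (ce x : Set L) := by rw [h]; exact Subgroup.mem_top _
        have h3 := (Subgroup.mem_normalizer_iff.mp h2 a).mp ha
        rwa [inv_inv] at h3)
      exact hyz (hCA x hx y hy z hz)
    have h2 : Subgroup.normalizer (ce x : Set L) = ce x := by
      apply le_antisymm
      · intro z hz
        rw [mem_ce]
        exact hmin _ h1 z hz x (Subgroup.le_normalizer (self_mem_ce x))
      · exact Subgroup.le_normalizer
    unfold nu
    rw [h2, div_self hA.ne']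
  haveI : Finite (Quotient (st L)) := Quotient.finite _
  haveI : Fintype (Quotient (st L)) := Fintype.ofFinite _
  refine arith_one (nonempty_st hne) (fun ω : Quotient (st L) => be ((ω.out : {x : L // x ∉ Subgroup.center L}) : L))
    (fun ω => nu ((ω.out : {x : L // x ∉ Subgroup.center L}) : L)) ((Nat.card (Subgroup.center L) : ℚ) / Nat.card L) ?_ ?_ ?_ ?_ (sum_q hCA)
  · have hZ : (0 : ℚ) < Nat.card (Subgroup.center L) := by exact_mod_cast Nat.card_pos
    have hL : (0 : ℚ) < Nat.card L := by exact_mod_cast Nat.card_pos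
    exact div_pos hZ hL
  · intro ω
    exact hnorm _ ω.out.2
  · intro ω
    obtain ⟨α, h1, h2⟩ := exists_alpha ω.out.2
    rw [be_of_alpha h2]
    apply one_div_le_one_div_of_le (by norm_num)
    exact_mod_cast h1
  · intro ω
    exact be_gt hCA hne ω.out.2

end

/-- a noncommutative subgroup contains a noncommutative subgroup with a normal commutative noncentral subgroup -/
theorem exists_min {G : Type u} [Group G] [Finite G] (C : Subgroup G) (hC : ∃ y ∈ C, ∃ z ∈ C, y * z ≠ z * y) :
    ∃ M N : Subgroup G, M ≤ C ∧ N ≤ M ∧ (∀ g ∈ M, ∀ a ∈ N, g⁻¹ * a * g ∈ N) ∧ (∀ a ∈ N, ∀ b ∈ N, a * b = b * a) ∧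
      ∃ g ∈ M, ∃ a ∈ N, g * a ≠ a * g := by
  classical
  have hex : ∃ n : ℕ, ∃ M : Subgroup G, M ≤ C ∧ (∃ y ∈ M, ∃ z ∈ M, y * z ≠ z * y) ∧ Nat.card M = n := ⟨_, C, le_rfl, hC, rfl⟩
  obtain ⟨M, hMC, hMne, hMn⟩ := Nat.find_spec hex
  have hmin : ∀ K : Subgroup M, K ≠ ⊤ → ∀ y ∈ K, ∀ z ∈ K, y * z = z * y := by
    intro K hK
    by_contra hcon
    push Not at hcon
    obtain ⟨y, hy, z, hz, hyz⟩ := hcon
    have h1 : Nat.card (K.map M.subtype) < Nat.find hex := by
      rw [← hMn, Nat.card_congr (K.equivMapOfInjective M.subtype M.subtype_injective).symm.toEquiv]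
      refine lt_of_le_of_ne (Nat.le_of_dvd Nat.card_pos (Subgroup.card_subgroup_dvd_card K)) fun h => ?_
      exact hK (Subgroup.eq_top_of_card_eq K h)
    apply Nat.find_min hex h1
    refine ⟨K.map M.subtype, ?_, ⟨y, Subgroup.mem_map_of_mem M.subtype hy, z, Subgroup.mem_map_of_mem M.subtype hz, ?_⟩, rfl⟩
    · rintro w ⟨v, -, rfl⟩
      exact hMC v.2
    · intro h
      exact hyz (Subtype.ext h)
  obtain ⟨y, hy, z, hz, hyz⟩ := hMne
  obtain ⟨x, hx, h1, h2⟩ := exists_normal_of_min hmin ⟨⟨y, hy⟩, ⟨z, hz⟩, fun h => hyz (congrArg Subtype.val h)⟩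
  refine ⟨M, (ce x).map M.subtype, hMC, ?_, ?_, ?_, ?_⟩
  · rintro w ⟨v, -, rfl⟩
    exact v.2
  · rintro g hg a ⟨b, hb, rfl⟩
    have h3 := h1 ⟨g, hg⟩ b hb
    exact ⟨_, h3, rfl⟩
  · rintro a ⟨a', ha, rfl⟩ b ⟨b', hb, rfl⟩
    have h3 := h2 a' ha b' hb
    exact congrArg Subtype.val h3
  · have h3 : ∃ g : M, g * x ≠ x * g := by
      by_contra hcon
      push Not at hcon
      exact hx (Subgroup.mem_center_iff.mpr hcon)
    obtain ⟨g, hg⟩ := h3
    exact ⟨g, g.2, x, Subgroup.mem_map_of_mem M.subtype (self_mem_ce x), fun h => hg (Subtype.ext h)⟩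

section

variable {L : Type u} [Group L]

/-- conjugation -/
@[reducible] def cjAct (H P : Subgroup L) (hn : ∀ h ∈ H, ∀ a ∈ P, h * a * h⁻¹ ∈ P) : MulAction H P where
  smul h a := ⟨h * a * (h : L)⁻¹, hn h h.2 a a.2⟩
  one_smul a := by
    apply Subtype.ext
    show ((1 : H) : L) * a * ((1 : H) : L)⁻¹ = a
    rw [OneMemClass.coe_one, inv_one, one_mul, mul_one]
  mul_smul g h a := by
    apply Subtype.ext
    show ((g * h : H) : L) * a * ((g * h : H) : L)⁻¹ = (g : L) * ((h : L) * a * (h : L)⁻¹) * (g : L)⁻¹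
    rw [Subgroup.coe_mul, mul_inv_rev]
    simp only [mul_assoc]

variable [Finite L]

/-- an `r`-element outside a normal subgroup of index `r` -/
theorem exists_r_element {r : ℕ} (hr : r.Prime) {A N : Subgroup L} (hAN : A ≤ N) (hn : ∀ g ∈ N, ∀ a ∈ A, g * a * g⁻¹ ∈ A)
    (hc : Nat.card N = r * Nat.card A) : ∃ g ∈ N, g ∉ A ∧ IsPGroup r (Subgroup.zpowers g) := by
  haveI : Fact r.Prime := ⟨hr⟩
  have hA0 : 0 < Nat.card A := Nat.card_pos
  obtain ⟨g0, hg0, hg0A⟩ : ∃ g ∈ N, g ∉ A := by
    by_contra hcon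
    push Not at hcon
    have h1 : N = A := le_antisymm hcon hAN
    rw [h1] at hc
    have := hr.one_lt
    nlinarith
  haveI : (A.subgroupOf N).Normal := by
    refine ⟨fun x hx g => ?_⟩
    rw [Subgroup.mem_subgroupOf] at hx ⊢
    exact hn g g.2 x hx
  have hidx : (A.subgroupOf N).index = r := by
    have h1 := Subgroup.card_mul_index (A.subgroupOf N)
    rw [Nat.card_congr (Subgroup.subgroupOfEquivOfLe hAN).toEquiv, hc, mul_comm r] at h1
    exact Nat.eq_of_mul_eq_mul_left hA0 h1
  have hpow : ∀ g ∈ N, g ^ r ∈ A := by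
    intro g hg
    have h1 := Subgroup.pow_index_mem (A.subgroupOf N) (⟨g, hg⟩ : N)
    rw [hidx, Subgroup.mem_subgroupOf] at h1
    exact h1
  have h0 : orderOf g0 ≠ 0 := (orderOf_pos g0).ne'
  obtain ⟨k, m, hm, hkm⟩ := Nat.exists_eq_pow_mul_and_not_dvd h0 r hr.ne_one
  have hm0 : m ≠ 0 := by
    rintro rfl
    exact hm (dvd_zero _)
  have ho : orderOf (g0 ^ m) = r ^ k := by
    rw [orderOf_pow_of_dvd hm0 (by rw [hkm]; exact Dvd.intro_left _ rfl), hkm, Nat.mul_div_cancel _ (Nat.pos_of_ne_zero hm0)]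
  refine ⟨g0 ^ m, N.pow_mem hg0 m, ?_, ?_⟩
  · intro h
    apply hg0A
    have h1 : Nat.Coprime r m := (Nat.Prime.coprime_iff_not_dvd hr).mpr hm
    have h2 : g0 ^ ((Nat.gcd r m : ℕ) : ℤ) ∈ A := by
      rw [Nat.gcd_eq_gcd_ab, zpow_add, zpow_mul, zpow_mul, zpow_natCast, zpow_natCast]
      exact A.mul_mem (A.zpow_mem (hpow g0 hg0) _) (A.zpow_mem h _)
    rw [Nat.Coprime.gcd_eq_one h1, Nat.cast_one, zpow_one] at h2
    exact h2
  · apply IsPGroup.of_card (n := k)
    rw [Nat.card_zpowers, ho]

/-- the fixed-point argument -/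
theorem card_ce_of_norm {r : ℕ} (hr : r.Prime) (hr2 : r ≠ 2) (hCA : CA L) (hodd : Odd (Nat.card L)) (hZ : IsPGroup r (Subgroup.center L))
    {x : L} (hx : x ∉ Subgroup.center L) (hN : Nat.card (Subgroup.normalizer (ce x : Set L)) = r * Nat.card (ce x)) {α : ℕ}
    (hα : Nat.card (ce x) = α * Nat.card (Subgroup.center L)) : α = r ∨ 2 * r + 1 ≤ α := by
  haveI : Fact r.Prime := ⟨hr⟩
  have hr3 : 3 ≤ r := by
    have := hr.two_le
    omega
  have hZ0 : 0 < Nat.card (Subgroup.center L) := Nat.card_pos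
  have hcomm : ∀ y ∈ ce x, ∀ z ∈ ce x, y * z = z * y := hCA x hx
  obtain ⟨g, hgN, hgA, hgp⟩ := exists_r_element hr (A := ce x) (N := Subgroup.normalizer (ce x : Set L)) Subgroup.le_normalizer
    (fun g hg a ha => (Subgroup.mem_normalizer_iff.mp hg a).mp ha) hN
  set P := piPart {r}ᶜ (ce x) hcomm with hP
  have hPA : P ≤ ce x := fun y hy => hy.1
  have hPn : ∀ h ∈ Subgroup.zpowers g, ∀ a ∈ P, h * a * h⁻¹ ∈ P := by
    intro h hh a ha
    have hhN : h ∈ Subgroup.normalizer (ce x : Set L) := by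
      obtain ⟨n, rfl⟩ := hh
      exact Subgroup.zpow_mem _ hgN n
    refine ⟨(Subgroup.mem_normalizer_iff.mp hhN a).mp ha.1, ?_⟩
    have h1 : orderOf (h * a * h⁻¹) = orderOf a := MulEquiv.orderOf_eq (MulAut.conj h) a
    rw [h1]
    exact ha.2
  letI := cjAct (Subgroup.zpowers g) P hPn
  have hmod := hgp.card_modEq_card_fixedPoints P
  have hone : ∀ a : L, a ∈ Subgroup.center L → a ∈ P → a = 1 := by
    intro a ha1 ha2
    obtain ⟨k, hk⟩ := IsPGroup.iff_orderOf.mp hZ ⟨a, ha1⟩
    have h1 : orderOf a = r ^ k := by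
      rw [← hk, ← Subgroup.orderOf_coe]
    by_contra hne
    have hk0 : k ≠ 0 := by
      rintro rfl
      rw [pow_zero, orderOf_eq_one_iff] at h1
      exact hne h1
    have h2 : r ∈ ({r}ᶜ : Set ℕ) := ha2.2 r hr (by rw [h1]; exact dvd_pow_self r hk0)
    exact h2 rfl
  have hfix : Nat.card (MulAction.fixedPoints (Subgroup.zpowers g) P) = 1 := by
    rw [Nat.card_eq_one_iff_unique]
    constructor
    · refine ⟨fun a b => ?_⟩
      have key : ∀ c : MulAction.fixedPoints (Subgroup.zpowers g) P, ((c : P) : L) = 1 := by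
        intro c
        have h1 : (⟨g, Subgroup.mem_zpowers g⟩ : Subgroup.zpowers g) • (c : P) = c := c.2 _
        have h2 : g * ((c : P) : L) * g⁻¹ = ((c : P) : L) := congrArg Subtype.val h1
        have h3 : g ∈ ce ((c : P) : L) := by
          rw [mem_ce]
          exact mul_inv_eq_iff_eq_mul.mp h2
        apply hone _ _ (c : P).2
        by_contra h4
        rw [ce_eq hCA hx h4 (hPA (c : P).2)] at h3
        exact hgA h3
      apply Subtype.ext
      apply Subtype.ext
      rw [key a, key b]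
    · refine ⟨⟨⟨1, P.one_mem⟩, fun h => ?_⟩⟩
      apply Subtype.ext
      show (h : L) * 1 * (h : L)⁻¹ = 1
      rw [mul_one, mul_inv_cancel]
  rw [hfix] at hmod
  have hdvd : Nat.card P ∣ α := by
    have h1 : Nat.Coprime (Nat.card P) (Nat.card (Subgroup.center L)) := by
      obtain ⟨k, hk⟩ := IsPGroup.iff_card.mp hZ
      rw [hk]
      apply Nat.Coprime.pow_right
      rw [Nat.coprime_comm, Nat.Prime.coprime_iff_not_dvd hr]
      intro h
      exact card_piPart {r}ᶜ (ce x) hcomm r hr h rfl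
    have h2 : Nat.card P ∣ Nat.card (ce x) := Subgroup.card_dvd_of_le hPA
    rw [hα] at h2
    exact h1.dvd_of_dvd_mul_right h2
  have hα0 : 0 < α := by
    rcases Nat.eq_zero_or_pos α with h | h
    · rw [h, zero_mul] at hα
      exact absurd hα Nat.card_pos.ne'
    · exact h
  by_cases hP1 : Nat.card P = 1
  · -- the centraliser is an `r`-group modulo the centre
    have h1 : ∀ t : ℕ, t.Prime → t ∣ Nat.card (ce x) → t = r := by
      intro t ht hd
      by_contra htr
      have h2 := relIndex_piPart {r}ᶜ (ce x) hcomm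
      have h3 : P.relIndex (ce x) = Nat.card (ce x) := by
        have h4 := Subgroup.relIndex_mul_relIndex ⊥ P (ce x) bot_le hPA
        rw [Subgroup.relIndex_bot_left, Subgroup.relIndex_bot_left, hP1, one_mul] at h4
        exact h4
      rw [← hP, h3] at h2
      exact h2 t ht hd htr
    have h2 : ∀ t : ℕ, t.Prime → t ∣ α → t = r := fun t ht hd => h1 t ht (by rw [hα]; exact Dvd.dvd.mul_right hd _)
    have h3 := Nat.eq_prime_pow_of_unique_prime_dvd hα0.ne' (fun {t} ht hd => h2 t ht hd)
    have hα2 : 2 ≤ α := by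
      obtain ⟨β, hβ1, hβ2⟩ := exists_alpha hx
      have h4 : β = α := Nat.eq_of_mul_eq_mul_right hZ0 (hβ2.symm.trans hα)
      rw [← h4]
      exact hβ1
    rw [h3]
    set e := α.primeFactorsList.length with he
    have h5 : e = 1 ∨ 2 ≤ e := by
      by_contra hcon
      have h6 : e = 0 := by omega
      rw [h6, pow_zero] at h3
      omega
    rcases h5 with h5 | h5
    · left
      rw [h5, pow_one]
    · right
      have h6 : r ^ 2 ≤ r ^ e := Nat.pow_le_pow_right (by omega) h5
      nlinarith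
  · right
    have h1 : 1 < Nat.card P := by
      have := Nat.card_pos (α := P)
      omega
    have hPodd : Odd (Nat.card P) := Odd.of_dvd_nat hodd (Subgroup.card_subgroup_dvd_card P)
    have h2 : r ∣ Nat.card P - 1 := (Nat.modEq_iff_dvd' h1.le).mp hmod.symm
    obtain ⟨j, hj⟩ := h2
    have hj2 : 2 ≤ j := by
      by_contra hcon
      have h3 : j = 0 ∨ j = 1 := by omega
      rcases h3 with rfl | rfl
      · omega
      · have h4 : Nat.card P = r + 1 := by omega
        rw [h4] at hPodd
        have h5 : Odd r := hr.odd_of_ne_two hr2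
        exact (Nat.not_even_iff_odd.mpr hPodd) (h5.add_odd odd_one)
    have h3 : 2 * r + 1 ≤ Nat.card P := by
      have := Nat.mul_le_mul_left r hj2
      omega
    exact h3.trans (Nat.le_of_dvd hα0 hdvd)

/-- the class equation yields a normal centraliser of index `r` -/
theorem exists_normal {r : ℕ} (hr : r.Prime) (hr2 : r ≠ 2) (hCA : CA L) (hne : ∃ x y : L, x * y ≠ y * x)
    (hp : ∀ t : ℕ, t.Prime → t ∣ Nat.card L → r ≤ t) (hZ : IsPGroup r (Subgroup.center L))
    (hN : ∀ x : L, x ∉ Subgroup.center L → Nat.card (Subgroup.normalizer (ce x : Set L)) = Nat.card (ce x) ∨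
      Nat.card (Subgroup.normalizer (ce x : Set L)) = r * Nat.card (ce x)) :
    ∃ x : L, x ∉ Subgroup.center L ∧ (∀ g, ∀ a ∈ ce x, g⁻¹ * a * g ∈ ce x) ∧ Nat.card L = r * Nat.card (ce x) := by
  classical
  have hr3 : 3 ≤ r := by
    have := hr.two_le
    omega
  have hr0 : (0 : ℚ) < r := by exact_mod_cast hr.pos
  have hodd : Odd (Nat.card L) := by
    rw [← Nat.not_even_iff_odd, even_iff_two_dvd]
    intro h
    have := hp 2 Nat.prime_two h
    omega
  haveI : Finite (Quotient (st L)) := Quotient.finite _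
  haveI : Fintype (Quotient (st L)) := Fintype.ofFinite _
  have hZ' : (0 : ℚ) < Nat.card (Subgroup.center L) := by exact_mod_cast Nat.card_pos
  have hL' : (0 : ℚ) < Nat.card L := by exact_mod_cast Nat.card_pos
  have hA' : ∀ x : L, (0 : ℚ) < Nat.card (ce x) := fun x => by exact_mod_cast Nat.card_pos
  obtain ⟨ω, hω1, hω2⟩ := arith_main (nonempty_st hne) hr3 (fun ω : Quotient (st L) => be ((ω.out : {x : L // x ∉ Subgroup.center L}) : L))
    (fun ω => nu ((ω.out : {x : L // x ∉ Subgroup.center L}) : L)) ((Nat.card (Subgroup.center L) : ℚ) / Nat.card L)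
    (div_pos hZ' hL') (by
      intro ω
      rcases hN _ ω.out.2 with h | h
      · left
        unfold nu
        rw [h, div_self (hA' _).ne']
      · right
        unfold nu
        rw [h, Nat.cast_mul, mul_div_assoc, div_self (hA' _).ne', mul_one]) (by
      intro ω
      obtain ⟨α, h1, h2⟩ := exists_alpha ω.out.2
      rw [be_of_alpha h2]
      have hαL : α ∣ Nat.card L := (Dvd.intro _ h2.symm).trans (Subgroup.card_subgroup_dvd_card _)
      have h3 : r ≤ α := by
        obtain ⟨t, ht, htα⟩ := Nat.exists_prime_and_dvd (n := α) (by omega)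
        exact (hp t ht (htα.trans hαL)).trans (Nat.le_of_dvd (by omega) htα)
      have h4 : α = r ∨ r + 2 ≤ α := by
        by_contra hcon
        have h5 : α = r + 1 := by omega
        have h6 : Odd α := Odd.of_dvd_nat hodd hαL
        rw [h5] at h6
        have h7 : Odd r := hr.odd_of_ne_two hr2
        exact (Nat.not_even_iff_odd.mpr h6) (h7.add_odd odd_one)
      rcases h4 with h4 | h4
      · left
        rw [h4]
      · right
        apply one_div_le_one_div_of_le (by positivity)
        exact_mod_cast h4) (by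
      intro ω hω
      obtain ⟨α, h1, h2⟩ := exists_alpha ω.out.2
      rw [be_of_alpha h2]
      have h3 : Nat.card (Subgroup.normalizer (ce ((ω.out : {x : L // x ∉ Subgroup.center L}) : L) : Set L))
          = r * Nat.card (ce ((ω.out : {x : L // x ∉ Subgroup.center L}) : L)) := by
        unfold nu at hω
        rw [div_eq_iff (hA' _).ne'] at hω
        exact_mod_cast hω
      rcases card_ce_of_norm hr hr2 hCA hodd hZ ω.out.2 h3 h2 with h4 | h4
      · left
        rw [h4]
      · right
        apply one_div_le_one_div_of_le (by positivity)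
        exact_mod_cast h4) (fun ω => nu_le _) (fun ω => be_gt hCA hne ω.out.2) (sum_q hCA)
  refine ⟨_, ω.out.2, ?_, ?_⟩
  · set x : L := ((ω.out : {x : L // x ∉ Subgroup.center L}) : L) with hx
    have h1 : Nat.card L = r * Nat.card (ce x) := by
      unfold be at hω2
      rw [div_eq_iff (hA' _).ne'] at hω2
      have h2 : (Nat.card L : ℚ) = r * Nat.card (ce x) := by
        field_simp at hω2
        linarith
      exact_mod_cast h2
    have h2 : Nat.card (Subgroup.normalizer (ce x : Set L)) = Nat.card L := by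
      rw [h1]
      unfold nu at hω1
      rw [div_eq_iff (hA' _).ne'] at hω1
      exact_mod_cast hω1
    have h3 := Subgroup.eq_top_of_card_eq _ h2
    intro g a ha
    have h4 : g⁻¹ ∈ Subgroup.normalizer (ce x : Set L) := by rw [h3]; exact Subgroup.mem_top _
    have h5 := (Subgroup.mem_normalizer_iff.mp h4 a).mp ha
    rwa [inv_inv] at h5
  · set x : L := ((ω.out : {x : L // x ∉ Subgroup.center L}) : L) with hx
    unfold be at hω2
    rw [div_eq_iff (hA' _).ne'] at hω2
    have h2 : (Nat.card L : ℚ) = r * Nat.card (ce x) := by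
      field_simp at hω2
      linarith
    exact_mod_cast h2

end

end Pool.Agent.H32.HallR
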