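import Pool.Agent.H32.HallR.GB
import Pool.Agent.H32.HallR.F

/-!
# HallR HA: centralisers in `π`-subgroups of `SL_r`
-/

set_option autoImplicit false

open Matrix

namespace Pool.Agent.H32.HallR

open Pool.Agent.H32.HallD

section

variable {G : Type*} [Group G]

theorem closure_comm {S : Set G} (h : ∀ x ∈ S, ∀ y ∈ S, x * y = y * x) :
    ∀ x ∈ Subgroup.closure S, ∀ y ∈ Subgroup.closure S, x * y = y * x := by
  intro x hx y hy
  have h1 : Subgroup.closure S ≤ Subgroup.centralizer S := by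
    rw [Subgroup.closure_le]
    intro z hz
    rw [SetLike.mem_coe, Subgroup.mem_centralizer_iff]
    intro w hw
    exact h w hw z hz
  have h2 := Subgroup.closure_le_centralizer_centralizer S hx
  rw [Subgroup.mem_centralizer_iff] at h2
  exact (h2 y (h1 hy)).symm

theorem closure_conj {S : Set G} {g : G} (h : ∀ x ∈ S, g⁻¹ * x * g ∈ Subgroup.closure S) :
    ∀ x ∈ Subgroup.closure S, g⁻¹ * x * g ∈ Subgroup.closure S := by
  have h1 : Subgroup.closure S ≤ cj g (Subgroup.closure S) := by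
    rw [Subgroup.closure_le]
    intro x hx
    rw [SetLike.mem_coe, mem_cj]
    exact h x hx
  intro x hx
  exact mem_cj.mp (h1 hx)

theorem conj_mem_cj {T x : G} {K : Subgroup G} (h : x ∈ K) : T⁻¹ * x * T ∈ cj T⁻¹ K := by
  rw [mem_cj]
  have h1 : T⁻¹⁻¹ * (T⁻¹ * x * T) * T⁻¹ = x := by group
  rw [h1]
  exact h

theorem exists_of_mem_cj {T x : G} {K : Subgroup G} (h : x ∈ cj T⁻¹ K) : ∃ y ∈ K, x = T⁻¹ * y * T := by
  rw [mem_cj] at h
  exact ⟨_, h, by group⟩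

end

variable {r : ℕ} [NeZero r] {F : Type} [Field F]

/-- an element whose conjugate is diagonal with equal entries is central -/
theorem central_of_entries {T x : SLr r F} (hx : T⁻¹ * x * T ∈ Dg r F) (h : ∀ i j, sm (T⁻¹ * x * T) i i = sm (T⁻¹ * x * T) j j) (g : SLr r F) :
    g * x = x * g := by
  have h1 := comm_of_entries (g := T⁻¹ * g * T) hx (fun i j _ => h i j)
  have h2 : T * (T⁻¹ * g * T * (T⁻¹ * x * T)) * T⁻¹ = g * x := by group
  have h3 : T * (T⁻¹ * x * T * (T⁻¹ * g * T)) * T⁻¹ = x * g := by group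
  rw [← h2, ← h3, h1]

theorem pow_of_central {x : SLr r F} (h : ∀ g : SLr r F, g * x = x * g) : x ^ r = 1 := by
  have h0 : x ∈ Subgroup.center (SpecialLinearGroup (Fin r) F) := Subgroup.mem_center_iff.mpr h
  obtain ⟨c, hc, hA⟩ := (Matrix.SpecialLinearGroup.mem_center_iff).mp h0
  rw [Fintype.card_fin] at hc
  apply sm_inj
  rw [sm_pow, sm_one]
  have h3 : sm x = Matrix.scalar (Fin r) c := hA.symm
  rw [h3, ← map_pow, hc, map_one]

variable [Finite F]

theorem comm_cent (hr : r.Prime) (hr2 : r ≠ 2) {L : Subgroup (SLr r F)} (hp : ∀ t : ℕ, t.Prime → t ∣ Nat.card L → r ≤ t)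
    (hpow : ∀ x ∈ L, x ^ (Nat.card F - 1) = 1) {x : SLr r F} (hx : x ∈ L) (hxc : ∃ g : SLr r F, g * x ≠ x * g) :
    ∀ y ∈ L, ∀ z ∈ L, y * x = x * y → z * x = x * z → y * z = z * y := by
  by_contra hcon
  push Not at hcon
  obtain ⟨y, hy, z, hz, hyx, hzx, hyz⟩ := hcon
  obtain ⟨M, N, hMC, hNM, hconj, hNc, g, hg, a, ha, hga⟩ := exists_min (L ⊓ ce x) ⟨y, ⟨hy, mem_ce.mpr hyx⟩, z, ⟨hz, mem_ce.mpr hzx⟩, hyz⟩
  have hML : M ≤ L := fun m hm => (hMC hm).1
  have hMx : ∀ m ∈ M, m * x = x * m := fun m hm => mem_ce.mp (hMC hm).2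
  set S : Set (SLr r F) := (N : Set (SLr r F)) ∪ {x} with hS
  set A := Subgroup.closure S with hA
  have hAc : ∀ u ∈ A, ∀ v ∈ A, u * v = v * u := by
    apply closure_comm
    rintro u (hu | hu) v (hv | hv)
    · exact hNc u hu v hv
    · rw [Set.mem_singleton_iff] at hv
      rw [hv]
      exact hMx u (hNM hu)
    · rw [Set.mem_singleton_iff] at hu
      rw [hu]
      exact (hMx v (hNM hv)).symm
    · rw [Set.mem_singleton_iff] at hu hv
      rw [hu, hv]
  have hAL : A ≤ L := by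
    rw [hA, Subgroup.closure_le]
    rintro u (hu | hu)
    · exact hML (hNM hu)
    · rw [Set.mem_singleton_iff] at hu
      rw [hu]
      exact hx
  have hNA : ∀ u ∈ N, u ∈ A := fun u hu => Subgroup.subset_closure (Or.inl hu)
  have hxA : x ∈ A := Subgroup.subset_closure (Or.inr rfl)
  have hAn : ∀ m ∈ M, ∀ u ∈ A, m⁻¹ * u * m ∈ A := by
    intro m hm
    apply closure_conj
    rintro u (hu | hu)
    · exact hNA _ (hconj m hm u hu)
    · rw [Set.mem_singleton_iff] at hu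
      rw [hu, mul_assoc, ← hMx m hm, inv_mul_cancel_left]
      exact hxA
  obtain ⟨T, hT⟩ := exists_diag (hr.odd_of_ne_two hr2) hAc (fun u hu => hpow u (hAL hu))
  have hAD : cj T⁻¹ A ≤ Dg r F := by
    intro u hu
    obtain ⟨v, hv, rfl⟩ := exists_of_mem_cj hu
    exact hT v hv
  have hn : ∀ m ∈ cj T⁻¹ M, ∀ u ∈ cj T⁻¹ A, m⁻¹ * u * m ∈ cj T⁻¹ A := by
    intro m hm u hu
    obtain ⟨m', hm', rfl⟩ := exists_of_mem_cj hm
    obtain ⟨u', hu', rfl⟩ := exists_of_mem_cj hu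
    have h1 : (T⁻¹ * m' * T)⁻¹ * (T⁻¹ * u' * T) * (T⁻¹ * m' * T) = T⁻¹ * (m'⁻¹ * u' * m') * T := by group
    rw [h1]
    exact conj_mem_cj (hAn m' hm' u' hu')
  rcases dich hn hr hAD (fun t ht hd => hp t ht (by rw [card_cj] at hd; exact hd.trans (Subgroup.card_dvd_of_le hML))) with h | ⟨h, -⟩
  · apply hga
    have h1 := h _ (conj_mem_cj hg) _ (conj_mem_cj (hNA a ha))
    have h2 : T * (T⁻¹ * g * T * (T⁻¹ * a * T)) * T⁻¹ = g * a := by group
    have h3 : T * (T⁻¹ * a * T * (T⁻¹ * g * T)) * T⁻¹ = a * g := by group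
    rw [← h2, ← h3, h1]
  · obtain ⟨g', hg'⟩ := hxc
    apply hg'
    refine central_of_entries (T := T) (hT x hxA) ?_ g'
    intro i j
    obtain ⟨m, hm, hmx⟩ := h i j
    have h1 := hmx _ (conj_mem_cj hxA)
    rw [h1]
    obtain ⟨m', hm', rfl⟩ := exists_of_mem_cj hm
    have h2 : (T⁻¹ * m' * T)⁻¹ * (T⁻¹ * x * T) * (T⁻¹ * m' * T) = T⁻¹ * x * T := by
      have h3 : (T⁻¹ * m' * T)⁻¹ * (T⁻¹ * x * T) * (T⁻¹ * m' * T) = T⁻¹ * (m'⁻¹ * (x * m')) * T := by group
      rw [h3, ← hMx m' hm', inv_mul_cancel_left]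
    rw [h2]

/-- the centralisers of noncentral elements are commutative -/
theorem ca_of (hr : r.Prime) (hr2 : r ≠ 2) {L : Subgroup (SLr r F)} (hp : ∀ t : ℕ, t.Prime → t ∣ Nat.card L → r ≤ t)
    (hpow : ∀ x ∈ L, x ^ (Nat.card F - 1) = 1) : CA L := by
  intro x hx y hy z hz
  apply Subtype.ext
  refine comm_cent hr hr2 hp hpow x.2 ?_ y y.2 z z.2 (congrArg Subtype.val (mem_ce.mp hy)) (congrArg Subtype.val (mem_ce.mp hz))
  by_contra hcon
  push Not at hcon
  apply hx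
  rw [Subgroup.mem_center_iff]
  intro g
  exact Subtype.ext (hcon g)

/-- the centre is an `r`-group -/
theorem pgroup_center (hr : r.Prime) (hr2 : r ≠ 2) {L : Subgroup (SLr r F)} (hp : ∀ t : ℕ, t.Prime → t ∣ Nat.card L → r ≤ t)
    (hpow : ∀ x ∈ L, x ^ (Nat.card F - 1) = 1) (hne : ∃ x y : L, x * y ≠ y * x) : IsPGroup r (Subgroup.center L) := by
  intro z
  refine ⟨1, ?_⟩
  rw [pow_one]
  have h1 : ∀ g : SLr r F, g * ((z : L) : SLr r F) = ((z : L) : SLr r F) * g := by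
    by_contra hcon
    push Not at hcon
    obtain ⟨x, y, hxy⟩ := hne
    apply hxy
    apply Subtype.ext
    exact comm_cent hr hr2 hp hpow (z : L).2 hcon x x.2 y y.2 (congrArg Subtype.val (Subgroup.mem_center_iff.mp z.2 x))
      (congrArg Subtype.val (Subgroup.mem_center_iff.mp z.2 y))
  have h2 := pow_of_central h1
  apply Subtype.ext
  apply Subtype.ext
  exact h2

/-- the normaliser of a centraliser -/
theorem card_norm (hr : r.Prime) (hr2 : r ≠ 2) {L : Subgroup (SLr r F)} (hp : ∀ t : ℕ, t.Prime → t ∣ Nat.card L → r ≤ t)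
    (hpow : ∀ x ∈ L, x ^ (Nat.card F - 1) = 1) {x : L} (hx : x ∉ Subgroup.center L) :
    Nat.card (Subgroup.normalizer (ce x : Set L)) = Nat.card (ce x) ∨ Nat.card (Subgroup.normalizer (ce x : Set L)) = r * Nat.card (ce x) := by
  have hCA := ca_of hr hr2 hp hpow
  set A := (ce x).map L.subtype with hA
  set M := (Subgroup.normalizer (ce x : Set L)).map L.subtype with hM
  have hAL : A ≤ L := by
    rintro y ⟨z, -, rfl⟩
    exact z.2
  have hML : M ≤ L := by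
    rintro y ⟨z, -, rfl⟩
    exact z.2
  have hcA : Nat.card A = Nat.card (ce x) := Nat.card_congr ((ce x).equivMapOfInjective L.subtype L.subtype_injective).symm.toEquiv
  have hcM : Nat.card M = Nat.card (Subgroup.normalizer (ce x : Set L)) :=
    Nat.card_congr ((Subgroup.normalizer (ce x : Set L)).equivMapOfInjective L.subtype L.subtype_injective).symm.toEquiv
  have hAc : ∀ u ∈ A, ∀ v ∈ A, u * v = v * u := by
    rintro u ⟨u', hu, rfl⟩ v ⟨v', hv, rfl⟩
    exact congrArg Subtype.val (hCA x hx u' hu v' hv)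
  have hxA : (x : SLr r F) ∈ A := Subgroup.mem_map_of_mem L.subtype (self_mem_ce x)
  have hAn : ∀ m ∈ M, ∀ u ∈ A, m⁻¹ * u * m ∈ A := by
    rintro m ⟨m', hm, rfl⟩ u ⟨u', hu, rfl⟩
    have h1 := (Subgroup.mem_normalizer_iff.mp (Subgroup.inv_mem _ hm) u').mp hu
    rw [inv_inv] at h1
    exact ⟨_, h1, rfl⟩
  have hceA : ∀ m ∈ M, m * (x : SLr r F) = x * m → m ∈ A := by
    rintro m ⟨m', hm, rfl⟩ h
    exact ⟨m', mem_ce.mpr (Subtype.ext h), rfl⟩
  obtain ⟨T, hT⟩ := exists_diag (hr.odd_of_ne_two hr2) hAc (fun u hu => hpow u (hAL hu))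
  have hAD : cj T⁻¹ A ≤ Dg r F := by
    intro u hu
    obtain ⟨v, hv, rfl⟩ := exists_of_mem_cj hu
    exact hT v hv
  have hn : ∀ m ∈ cj T⁻¹ M, ∀ u ∈ cj T⁻¹ A, m⁻¹ * u * m ∈ cj T⁻¹ A := by
    intro m hm u hu
    obtain ⟨m', hm', rfl⟩ := exists_of_mem_cj hm
    obtain ⟨u', hu', rfl⟩ := exists_of_mem_cj hu
    have h1 : (T⁻¹ * m' * T)⁻¹ * (T⁻¹ * u' * T) * (T⁻¹ * m' * T) = T⁻¹ * (m'⁻¹ * u' * m') * T := by group
    rw [h1]
    exact conj_mem_cj (hAn m' hm' u' hu')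
  have hback : ∀ m ∈ M, (T⁻¹ * m * T) * (T⁻¹ * x * T) = (T⁻¹ * x * T) * (T⁻¹ * m * T) → m ∈ A := by
    intro m hm h
    apply hceA m hm
    have h2 : T * (T⁻¹ * m * T * (T⁻¹ * x * T)) * T⁻¹ = m * x := by group
    have h3 : T * (T⁻¹ * x * T * (T⁻¹ * m * T)) * T⁻¹ = x * m := by group
    rw [← h2, ← h3, h]
  rcases card_dich hn hr hAD (fun t ht hd => hp t ht (by rw [card_cj] at hd; exact hd.trans (Subgroup.card_dvd_of_le hML))) with h | ⟨-, -, h⟩
  · left
    have h1 : M = A := by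
      apply le_antisymm
      · intro m hm
        exact hback m hm (h _ (conj_mem_cj hm) _ (conj_mem_cj hxA))
      · exact Subgroup.map_mono Subgroup.le_normalizer
    rw [← hcM, ← hcA, h1]
  · right
    have h1 := h (cj T⁻¹ A) (by
      intro g
      constructor
      · intro hg
        obtain ⟨u, hu, rfl⟩ := exists_of_mem_cj hg
        refine ⟨conj_mem_cj (Subgroup.map_mono Subgroup.le_normalizer hu), ?_⟩
        intro a ha
        obtain ⟨v, hv, rfl⟩ := exists_of_mem_cj ha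
        have h2 : T⁻¹ * u * T * (T⁻¹ * v * T) = T⁻¹ * (u * v) * T := by group
        have h3 : T⁻¹ * v * T * (T⁻¹ * u * T) = T⁻¹ * (v * u) * T := by group
        rw [h2, h3, hAc u hu v hv]
      · rintro ⟨hg, hgc⟩
        obtain ⟨m, hm, rfl⟩ := exists_of_mem_cj hg
        exact conj_mem_cj (hback m hm (hgc _ (conj_mem_cj hxA))))
    rw [card_cj, card_cj] at h1
    rw [← hcM, ← hcA]
    exact h1

/-- a noncommutative `π`-subgroup has a normal commutative subgroup of index `r` -/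
theorem exists_abelian (hr : r.Prime) (hr2 : r ≠ 2) {L : Subgroup (SLr r F)} (hp : ∀ t : ℕ, t.Prime → t ∣ Nat.card L → r ≤ t)
    (hpow : ∀ x ∈ L, x ^ (Nat.card F - 1) = 1) (hne : ∃ x ∈ L, ∃ y ∈ L, x * y ≠ y * x) :
    ∃ A : Subgroup (SLr r F), A ≤ L ∧ (∀ u ∈ A, ∀ v ∈ A, u * v = v * u) ∧ (∀ m ∈ L, ∀ u ∈ A, m⁻¹ * u * m ∈ A) ∧ Nat.card L = r * Nat.card A ∧
      ∃ a ∈ A, ∃ m ∈ L, m * a ≠ a * m := by
  obtain ⟨x₁, hx₁, y₁, hy₁, hxy⟩ := hne
  have hne' : ∃ x y : L, x * y ≠ y * x := ⟨⟨x₁, hx₁⟩, ⟨y₁, hy₁⟩, fun h => hxy (congrArg Subtype.val h)⟩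
  have hCA := ca_of hr hr2 hp hpow
  obtain ⟨x, hx, hconj, hcard⟩ := exists_normal hr hr2 hCA hne' hp (pgroup_center hr hr2 hp hpow hne') (fun x hx => card_norm hr hr2 hp hpow hx)
  refine ⟨(ce x).map L.subtype, ?_, ?_, ?_, ?_, ?_⟩
  · rintro y ⟨z, -, rfl⟩
    exact z.2
  · rintro u ⟨u', hu, rfl⟩ v ⟨v', hv, rfl⟩
    exact congrArg Subtype.val (hCA x hx u' hu v' hv)
  · rintro m hm u ⟨u', hu, rfl⟩
    exact ⟨_, hconj ⟨m, hm⟩ u' hu, rfl⟩
  · rw [hcard, Nat.card_congr ((ce x).equivMapOfInjective L.subtype L.subtype_injective).symm.toEquiv]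
  · have h1 : ∃ m : L, m * x ≠ x * m := by
      by_contra hcon
      push Not at hcon
      exact hx (Subgroup.mem_center_iff.mpr hcon)
    obtain ⟨m, hm⟩ := h1
    exact ⟨x, Subgroup.mem_map_of_mem L.subtype (self_mem_ce x), m, m.2, fun h => hm (Subtype.ext h)⟩

end Pool.Agent.H32.HallR
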