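import Pool.Agent.H32.HallR.HA

/-!
# HallR HB: a noncommutative `π`-subgroup of `SL_r` is monomial
-/

set_option autoImplicit false

open Matrix

namespace Pool.Agent.H32.HallR

open Pool.Agent.H32.HallD

section

variable {G : Type*} [Group G] [Finite G]

/-- a normal subgroup of prime index -/
theorem exists_gen {r : ℕ} (hr : r.Prime) {L A : Subgroup G} (hAL : A ≤ L) (hn : ∀ m ∈ L, ∀ u ∈ A, m⁻¹ * u * m ∈ A)
    (hcard : Nat.card L = r * Nat.card A) : ∃ g ∈ L, g ^ r ∈ A ∧ ∀ x ∈ L, ∃ k < r, ∃ a ∈ A, x = a * g ^ k := by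
  haveI : Fact r.Prime := ⟨hr⟩
  have hA0 : 0 < Nat.card A := Nat.card_pos
  obtain ⟨g, hgL, hgA⟩ : ∃ g ∈ L, g ∉ A := by
    by_contra hcon
    push Not at hcon
    have h1 : L = A := le_antisymm hcon hAL
    rw [h1] at hcard
    have h2 := hr.one_lt
    nlinarith
  have hnorm : (A.subgroupOf L).Normal := by
    refine ⟨fun u hu m => ?_⟩
    rw [Subgroup.mem_subgroupOf] at hu ⊢
    have h1 := hn ((m : G)⁻¹) (L.inv_mem m.2) u hu
    rw [inv_inv] at h1
    exact h1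
  have hindex : Nat.card (L ⧸ A.subgroupOf L) = r := by
    have h1 := Subgroup.card_mul_index (A.subgroupOf L)
    rw [Nat.card_congr (Subgroup.subgroupOfEquivOfLe hAL).toEquiv, hcard] at h1
    have h2 : (A.subgroupOf L).index = r := by
      apply Nat.eq_of_mul_eq_mul_left hA0
      rw [h1, mul_comm]
    exact h2
  set q : L → L ⧸ A.subgroupOf L := fun x => (x : L ⧸ A.subgroupOf L) with hq
  have hg1 : (QuotientGroup.mk (⟨g, hgL⟩ : L) : L ⧸ A.subgroupOf L) ≠ 1 := by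
    intro h
    rw [QuotientGroup.eq_one_iff, Subgroup.mem_subgroupOf] at h
    exact hgA h
  refine ⟨g, hgL, ?_, ?_⟩
  · have h1 := pow_card_eq_one' (x := (QuotientGroup.mk (⟨g, hgL⟩ : L) : L ⧸ A.subgroupOf L))
    rw [hindex, ← QuotientGroup.mk_pow, QuotientGroup.eq_one_iff, Subgroup.mem_subgroupOf] at h1
    exact h1
  · intro x hx
    obtain ⟨n, hn'⟩ := mem_powers_of_prime_card (g' := (QuotientGroup.mk (⟨x, hx⟩ : L) : L ⧸ A.subgroupOf L)) hindex hg1
    have h2 : (QuotientGroup.mk (⟨g, hgL⟩ : L) : L ⧸ A.subgroupOf L) ^ (n % r) = QuotientGroup.mk (⟨x, hx⟩ : L) := by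
      rw [← hn']
      have h3 := pow_mod_natCard (QuotientGroup.mk (⟨g, hgL⟩ : L) : L ⧸ A.subgroupOf L) n
      rw [hindex] at h3
      exact h3
    refine ⟨n % r, Nat.mod_lt _ hr.pos, x * (g ^ (n % r))⁻¹, ?_, by group⟩
    have h3 : (QuotientGroup.mk ((⟨x, hx⟩ : L) * ((⟨g, hgL⟩ : L) ^ (n % r))⁻¹) : L ⧸ A.subgroupOf L) = 1 := by
      rw [QuotientGroup.mk_mul, QuotientGroup.mk_inv, QuotientGroup.mk_pow, h2, mul_inv_cancel]
    rw [QuotientGroup.eq_one_iff, Subgroup.mem_subgroupOf] at h3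
    exact h3

end

variable {r : ℕ} [NeZero r] {F : Type} [Field F]

theorem mul_mm_apply (Q : Matrix (Fin r) (Fin r) F) (l : Fin r) (e : Fin r → F) (i k : Fin r) :
    (Q * mm l e) i k = Q i (k - l) * e (k - l) := by
  rw [Matrix.mul_apply, Finset.sum_eq_single (k - l)]
  · rw [mm_apply, if_pos (sub_add_cancel k l).symm]
  · intro m _ hm
    rw [mm_apply, if_neg, mul_zero]
    intro h
    apply hm
    rw [h, add_sub_cancel_right]
  · intro h
    exact absurd (Finset.mem_univ _) h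

theorem sm_mul_apply_Dg {a : SLr r F} (ha : a ∈ Dg r F) (Q : Matrix (Fin r) (Fin r) F) (i k : Fin r) :
    (sm a * Q) i k = sm a i i * Q i k := by
  obtain ⟨d, hd⟩ := ha
  rw [Matrix.mul_apply, Finset.sum_eq_single i]
  · intro m _ hm
    rw [hd, mm_apply, add_zero, if_neg hm, zero_mul]
  · intro h
    exact absurd (Finset.mem_univ _) h

theorem Dg_offdiag {a : SLr r F} (ha : a ∈ Dg r F) {i j : Fin r} (h : j ≠ i) : sm a i j = 0 := by
  obtain ⟨d, hd⟩ := ha
  rw [hd, mm_apply, add_zero, if_neg h]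

/-- the monomial form -/
theorem mono_of [Finite F] (hr : r.Prime) (hr2 : r ≠ 2) {L A : Subgroup (SLr r F)} (hAL : A ≤ L) (hAD : A ≤ Dg r F)
    (hn : ∀ m ∈ L, ∀ u ∈ A, m⁻¹ * u * m ∈ A) (hcard : Nat.card L = r * Nat.card A)
    (htr : ∀ i j, ∃ g ∈ L, ∀ a ∈ A, sm a i i = sm (g⁻¹ * a * g) j j) (hinj : Function.Injective (ch A)) :
    ∃ T : SLr r F, ∀ x ∈ L, T⁻¹ * x * T ∈ Mon (⊤ : Subgroup Fˣ) := by
  classical
  obtain ⟨g, hgL, hgr, hgen⟩ := exists_gen hr hAL hn hcard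
  have hnk : ∀ k : ℕ, ∀ a ∈ A, (g ^ k)⁻¹ * a * g ^ k ∈ A := fun k a ha => hn _ (L.pow_mem hgL k) a ha
  choose τ hτ using fun k : Fin r => exists_col (g ^ k.val) 0
  have hch : ∀ (k : Fin r) (i : Fin r), sm (g ^ k.val) i 0 ≠ 0 → ∀ a ∈ A, sm a i i = sm ((g ^ k.val)⁻¹ * a * g ^ k.val) 0 0 := by
    intro k i hi a ha
    have h1 := entry_eq (hAD ha) (hAD (hnk k.val a ha)) (g := g ^ k.val) (by group) i 0
    rw [mul_comm] at h1
    exact mul_left_cancel₀ hi h1
  have hchi : ∀ (k : Fin r) (i : Fin r), (∀ a ∈ A, sm a i i = sm ((g ^ k.val)⁻¹ * a * g ^ k.val) 0 0) → i = τ k := by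
    intro k i h
    apply hinj
    funext a
    exact (h a a.2).trans (hch k (τ k) (hτ k) a a.2).symm
  have huniq : ∀ k i : Fin r, i ≠ τ k → sm (g ^ k.val) i 0 = 0 := by
    intro k i hi
    by_contra h
    exact hi (hchi k i (hch k i h))
  have hsurj : Function.Surjective τ := by
    intro i
    obtain ⟨x, hx, hxa⟩ := htr i 0
    obtain ⟨k, hk, b, hb, rfl⟩ := hgen x hx
    refine ⟨⟨k, hk⟩, (hchi ⟨k, hk⟩ i ?_).symm⟩
    intro a ha
    rw [hxa a ha]
    have h1 : b⁻¹ * a * b = a := by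
      rw [mul_assoc, Dg_comm (hAD ha) (hAD hb), inv_mul_cancel_left]
    have h2 : (b * g ^ k)⁻¹ * a * (b * g ^ k) = (g ^ k)⁻¹ * (b⁻¹ * a * b) * g ^ k := by group
    rw [h2, h1]
  have hbij : Function.Bijective τ := Finite.surjective_iff_bijective.mp hsurj
  set Q : Matrix (Fin r) (Fin r) F := Matrix.of fun i k => sm (g ^ k.val) i 0 with hQ
  have hQa : ∀ i k, Q i k = sm (g ^ k.val) i 0 := fun i k => rfl
  have hQ0 : ∀ i k, i ≠ τ k → Q i k = 0 := fun i k h => huniq k i h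
  have hdet : Q.det ≠ 0 := by
    have h1 : Q.submatrix (Equiv.ofBijective τ hbij) id = Matrix.diagonal (fun k => Q (τ k) k) := by
      ext i k
      rw [Matrix.submatrix_apply, id_eq, Equiv.ofBijective_apply, Matrix.diagonal_apply]
      by_cases h : i = k
      · rw [if_pos h, h]
      · rw [if_neg h]
        exact hQ0 _ _ (fun h2 => h (hbij.1 h2))
    have h2 := Matrix.det_permute (Equiv.ofBijective τ hbij) Q
    rw [h1, Matrix.det_diagonal] at h2
    intro h3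
    rw [h3, mul_zero] at h2
    rw [Finset.prod_eq_zero_iff] at h2
    obtain ⟨k, -, hk⟩ := h2
    exact hτ k hk
  -- the diagonal part
  have hdiag : ∀ a ∈ A, sm a * Q = Q * mm 0 (fun k => sm a (τ k) (τ k)) := by
    intro a ha
    ext i k
    rw [sm_mul_apply_Dg (hAD ha), mul_mm_apply, sub_zero]
    by_cases h : i = τ k
    · rw [h, mul_comm]
    · rw [hQ0 i k h, mul_zero, zero_mul]
  -- the shift
  have hshift : sm g * Q = Q * mm (-1) (fun m => if m = 0 then sm (g ^ r) 0 0 else 1) := by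
    ext i k
    rw [mul_mm_apply, sub_neg_eq_add]
    have h1 : (sm g * Q) i k = sm (g ^ (k.val + 1)) i 0 := by
      rw [pow_succ', sm_mul, Matrix.mul_apply, Matrix.mul_apply]
      rfl
    rw [h1]
    by_cases h : k.val + 1 < r
    · have h2 := val_add_one hr.one_lt k h
      have h3 : k + 1 ≠ 0 := by
        intro h4
        rw [h4] at h2
        have h5 : ((0 : Fin r) : ℕ) = 0 := rfl
        omega
      rw [if_neg h3, mul_one, hQa, h2]
    · have h2 : k.val + 1 = r := by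
        have := k.isLt
        omega
      have h3 : k + 1 = 0 := Fin.ext (val_add_one' hr.one_lt k h2)
      rw [h3, if_pos rfl, hQa, h2]
      have h4 : ((0 : Fin r) : ℕ) = 0 := rfl
      rw [h4, pow_zero, sm_one]
      by_cases hi : i = 0
      · rw [hi, Matrix.one_apply_eq, one_mul]
      · rw [Dg_offdiag (hAD hgr) (fun h5 => hi h5.symm), Matrix.one_apply_ne hi, zero_mul]
  have hmul : ∀ x y : SLr r F, (∃ k d, sm x * Q = Q * mm k d) → (∃ k d, sm y * Q = Q * mm k d) → ∃ k d, sm (x * y) * Q = Q * mm k d := by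
    rintro x y ⟨k, d, hx⟩ ⟨l, e, hy⟩
    refine ⟨k + l, fun i => d i * e (i + k), ?_⟩
    rw [sm_mul, mul_assoc, hy, ← mul_assoc, hx, mul_assoc, mm_mul]
  have hpow : ∀ n : ℕ, ∃ k d, sm (g ^ n) * Q = Q * mm k d := by
    intro n
    induction n with
    | zero => exact ⟨0, fun _ => 1, by rw [pow_zero, sm_one, one_mul, mm_one, mul_one]⟩
    | succ n ih =>
      rw [pow_succ]
      exact hmul _ _ ih ⟨_, _, hshift⟩
  obtain ⟨T, hT⟩ := to_SL (hr.odd_of_ne_two hr2) hdet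
  refine ⟨T, fun x hx => ?_⟩
  obtain ⟨k, hk, a, ha, rfl⟩ := hgen x hx
  obtain ⟨l, d, hd⟩ := hmul a (g ^ k) ⟨_, _, hdiag a ha⟩ (hpow k)
  exact (hT _ l d hd).mem

/-- a `π`-subgroup is monomial -/
theorem exists_mono [Finite F] (hr : r.Prime) (hr2 : r ≠ 2) {L : Subgroup (SLr r F)} (hp : ∀ t : ℕ, t.Prime → t ∣ Nat.card L → r ≤ t)
    (hpow : ∀ x ∈ L, x ^ (Nat.card F - 1) = 1) : ∃ T : SLr r F, ∀ x ∈ L, T⁻¹ * x * T ∈ Mon (⊤ : Subgroup Fˣ) := by
  by_cases hne : ∃ x ∈ L, ∃ y ∈ L, x * y ≠ y * x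
  · obtain ⟨A, hAL, hAc, hAn, hcard, a, ha, m, hm, hma⟩ := exists_abelian hr hr2 hp hpow hne
    obtain ⟨T, hT⟩ := exists_diag (hr.odd_of_ne_two hr2) hAc (fun u hu => hpow u (hAL hu))
    have hAD : cj T⁻¹ A ≤ Dg r F := by
      intro u hu
      obtain ⟨v, hv, rfl⟩ := exists_of_mem_cj hu
      exact hT v hv
    have hn : ∀ m ∈ cj T⁻¹ L, ∀ u ∈ cj T⁻¹ A, m⁻¹ * u * m ∈ cj T⁻¹ A := by
      intro m hm u hu
      obtain ⟨m', hm', rfl⟩ := exists_of_mem_cj hm
      obtain ⟨u', hu', rfl⟩ := exists_of_mem_cj hu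
      have h1 : (T⁻¹ * m' * T)⁻¹ * (T⁻¹ * u' * T) * (T⁻¹ * m' * T) = T⁻¹ * (m'⁻¹ * u' * m') * T := by group
      rw [h1]
      exact conj_mem_cj (hAn m' hm' u' hu')
    have hle : cj T⁻¹ A ≤ cj T⁻¹ L := by
      intro u hu
      obtain ⟨v, hv, rfl⟩ := exists_of_mem_cj hu
      exact conj_mem_cj (hAL hv)
    rcases dich hn hr hAD (fun t ht hd => hp t ht (by rw [card_cj] at hd; exact hd)) with h | ⟨h1, h2⟩
    · exfalso
      apply hma
      have h1 := h _ (conj_mem_cj hm) _ (conj_mem_cj ha)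
      have h2 : T * (T⁻¹ * m * T * (T⁻¹ * a * T)) * T⁻¹ = m * a := by group
      have h3 : T * (T⁻¹ * a * T * (T⁻¹ * m * T)) * T⁻¹ = a * m := by group
      rw [← h2, ← h3, h1]
    · obtain ⟨S, hS⟩ := mono_of hr hr2 hle hAD hn (by rw [card_cj, card_cj, hcard]) h1 h2
      refine ⟨T * S, fun x hx => ?_⟩
      have h3 := hS _ (conj_mem_cj hx)
      have h4 : S⁻¹ * (T⁻¹ * x * T) * S = (T * S)⁻¹ * x * (T * S) := by group
      rw [← h4]
      exact h3
  · push Not at hne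
    obtain ⟨T, hT⟩ := exists_diag (hr.odd_of_ne_two hr2) hne hpow
    exact ⟨T, fun x hx => (hT x hx).mem⟩

end Pool.Agent.H32.HallR
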