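import Pool.Agent.H32.HallR.HB
import Pool.Agent.H32.HallD.SylN

/-!
# HallR HC: `PSL_r(q)`, `r` dividing `q - 1`, is a `D_π`-group
-/

set_option autoImplicit false

open Matrix

namespace Pool.Agent.H32.HallR

open Pool.Agent.H32.HallD

variable {r : ℕ} [NeZero r] {F : Type} [Field F] [Finite F]

/-- the conjugacy theorem -/
theorem conj_SLr (hr : r.Prime) (hr2 : r ≠ 2) {π : Set ℕ} (hrπ : r ∈ π)
    (hτ : ∀ t ∈ π, t.Prime → t ≠ r → t ∣ Nat.card (SLr r F) → r < t ∧ t ∣ Nat.card F - 1)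
    (hrF : r ∣ Nat.card F - 1) {L : Subgroup (SLr r F)} (hL : PiSubgroup π L) : ∃ g, L ≤ cj g (Mon (muPi π F)) := by
  have hH := hall_large hr hr2 hrπ hτ hrF
  have hp : ∀ t : ℕ, t.Prime → t ∣ Nat.card L → r ≤ t := by
    intro t ht hd
    by_cases htr : t = r
    · exact htr.ge
    · exact ((hτ t (hL t ht hd) ht htr (hd.trans (Subgroup.card_subgroup_dvd_card L))).1).le
  have hpow : ∀ x ∈ L, x ^ (Nat.card F - 1) = 1 := fun x hx => HallR.pow_of_pi hr hr2 hrF hH (pi_order hL hx)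
  obtain ⟨T, hT⟩ := exists_mono hr hr2 hp hpow
  have h1 : cj T⁻¹ L ≤ Mon (⊤ : Subgroup Fˣ) := by
    intro u hu
    obtain ⟨v, hv, rfl⟩ := exists_of_mem_cj hu
    exact hT v hv
  have h2 : PiSubgroup π (cj T⁻¹ L) := by
    show PiNumber _ _
    rw [card_cj]
    exact hL
  obtain ⟨t, ht⟩ := conj_Mon hr hr2 hrπ h2 h1
  refine ⟨T * t, fun x hx => ?_⟩
  have h3 := ht (conj_mem_cj hx)
  rw [mem_cj] at h3 ⊢
  have h4 : t⁻¹ * (T⁻¹ * x * T) * t = (T * t)⁻¹ * x * (T * t) := by group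
  rw [← h4]
  exact h3

omit [NeZero r] [Finite F] in
/-- the primes dividing the order of the centre -/
theorem prime_center [Finite F] (hr : r.Prime) {t : ℕ} (ht : t.Prime) (hd : t ∣ Nat.card (Subgroup.center (SLr r F))) : t = r := by
  haveI : NeZero r := ⟨hr.ne_zero⟩
  haveI : Fact t.Prime := ⟨ht⟩
  obtain ⟨x, hx⟩ := exists_prime_orderOf_dvd_card' t hd
  have h1 : (x : SLr r F) ^ r = 1 := pow_of_central (fun g => Subgroup.mem_center_iff.mp x.2 g)
  have h2 : orderOf x ∣ r := by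
    apply orderOf_dvd_of_pow_eq_one
    exact Subtype.ext h1
  rw [hx] at h2
  exact (Nat.prime_dvd_prime_iff_eq ht hr).mp h2

omit [NeZero r] in
theorem dvd_psl (hr : r.Prime) {t : ℕ} (ht : t.Prime) (htr : t ≠ r) (hd : t ∣ Nat.card (SLr r F)) :
    t ∣ Nat.card (ProjectiveSpecialLinearGroup (Fin r) F) := by
  have h1 := Subgroup.card_mul_index (Subgroup.center (SLr r F))
  rw [← h1] at hd
  rcases (Nat.Prime.dvd_mul ht).mp hd with h | h
  · exact absurd (prime_center hr ht h) htr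
  · exact h

/-- `PSL_r` is a `D_π`-group -/
theorem dpi_PSL (hr : r.Prime) (hr2 : r ≠ 2) {π : Set ℕ} (hrπ : r ∈ π)
    (hτ : ∀ t ∈ π, t.Prime → t ≠ r → t ∣ Nat.card (ProjectiveSpecialLinearGroup (Fin r) F) → r < t ∧ t ∣ Nat.card F - 1)
    (hrF : r ∣ Nat.card F - 1) : DPi π (ProjectiveSpecialLinearGroup (Fin r) F) := by
  have hτ' : ∀ t ∈ π, t.Prime → t ≠ r → t ∣ Nat.card (SLr r F) → r < t ∧ t ∣ Nat.card F - 1 :=
    fun t ht htp htr hd => hτ t ht htp htr (dvd_psl hr htp htr hd)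
  refine dpi_quotient _ ?_ (hall_large hr hr2 hrπ hτ' hrF) (fun _ hL => conj_SLr hr hr2 hrπ hτ' hrF hL)
  intro t ht hd
  rw [prime_center hr ht hd]
  exact hrπ

end Pool.Agent.H32.HallR
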