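import Pool.Agent.H32.HallR.HC
import Pool.Agent.H32.HallD.Equi

/-!
# HallR IA: `SL_r(q₀)`, `r` not dividing `q₀ - 1`, is not a `D_π`-group
-/

set_option autoImplicit false

open Matrix

namespace Pool.Agent.H32.HallR

open Pool.Agent.H32.HallD

variable {r : ℕ} [NeZero r] {F : Type} [Field F]

omit [NeZero r] in
/-- the matrix with the eigenvalues `x` (`r - 1` times) and `y` -/
def Y (r : ℕ) (x y : F) : Matrix (Fin r) (Fin r) F := x • (1 : Matrix (Fin r) (Fin r) F) + ((y - x) * (r : F)⁻¹) • (Matrix.of fun _ _ => (1 : F))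

omit [NeZero r] in
theorem Y_apply (x y : F) (i j : Fin r) : Y r x y i j = (if i = j then x else 0) + (y - x) * (r : F)⁻¹ := by
  unfold Y
  rw [Matrix.add_apply, Matrix.smul_apply, Matrix.smul_apply, Matrix.one_apply, Matrix.of_apply, smul_eq_mul, smul_eq_mul, mul_one]
  by_cases h : i = j
  · rw [if_pos h, if_pos h, mul_one]
  · rw [if_neg h, if_neg h, mul_zero]

omit [NeZero r] in
theorem Y_mul (hr0 : (r : F) ≠ 0) (x y x' y' : F) : Y r x y * Y r x' y' = Y r (x * x') (y * y') := by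
  ext i j
  rw [Matrix.mul_apply, Y_apply]
  simp only [Y_apply]
  have h1 : ∀ k : Fin r, ((if i = k then x else 0) + (y - x) * (r : F)⁻¹) * ((if k = j then x' else 0) + (y' - x') * (r : F)⁻¹) =
      (if i = k then x * (if k = j then x' else 0) else 0) + (if i = k then x * ((y' - x') * (r : F)⁻¹) else 0) +
        (if k = j then (y - x) * (r : F)⁻¹ * x' else 0) + (y - x) * (r : F)⁻¹ * ((y' - x') * (r : F)⁻¹) := by
    intro k
    split_ifs <;> ring
  rw [Finset.sum_congr rfl (fun k _ => h1 k), Finset.sum_add_distrib, Finset.sum_add_distrib, Finset.sum_add_distrib,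
    Finset.sum_ite_eq, Finset.sum_ite_eq, Finset.sum_ite_eq', if_pos (Finset.mem_univ _), if_pos (Finset.mem_univ _), if_pos (Finset.mem_univ _),
    Finset.sum_const, Finset.card_univ, Fintype.card_fin, nsmul_eq_mul]
  split_ifs
  · field_simp
    ring
  · field_simp
    ring

omit [NeZero r] in
theorem Y_one : Y r (1 : F) 1 = 1 := by
  unfold Y
  rw [sub_self, zero_mul, zero_smul, add_zero, one_smul]

omit [NeZero r] in
theorem Y_pow (hr0 : (r : F) ≠ 0) (x y : F) (n : ℕ) : Y r x y ^ n = Y r (x ^ n) (y ^ n) := by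
  induction n with
  | zero => rw [pow_zero, pow_zero, pow_zero, Y_one]
  | succ n ih => rw [pow_succ, ih, Y_mul hr0, pow_succ, pow_succ]

omit [NeZero r] in
theorem Y_det (hr1 : 0 < r) (hr0 : (r : F) ≠ 0) {x : F} (hx : x ≠ 0) (y : F) : (Y r x y).det = x ^ (r - 1) * y := by
  have h1 : Y r x y = x • (1 + Matrix.replicateCol Unit (fun _ : Fin r => (y - x) * (r : F)⁻¹ * x⁻¹) * Matrix.replicateRow Unit (fun _ : Fin r => (1 : F))) := by
    ext i j
    rw [Y_apply, Matrix.smul_apply, Matrix.add_apply, Matrix.one_apply, Matrix.mul_apply]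
    simp only [Finset.univ_unique, Finset.sum_singleton, Matrix.replicateCol_apply, Matrix.replicateRow_apply, smul_eq_mul]
    split_ifs
    · field_simp
    · field_simp
      ring
  rw [h1, Matrix.det_smul, Matrix.det_one_add_replicateCol_mul_replicateRow, Fintype.card_fin]
  have h2 : (fun _ : Fin r => (1 : F)) ⬝ᵥ (fun _ : Fin r => (y - x) * (r : F)⁻¹ * x⁻¹) = (y - x) * x⁻¹ := by
    unfold dotProduct
    rw [Finset.sum_const, Finset.card_univ, Fintype.card_fin, nsmul_eq_mul, one_mul]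
    field_simp
  rw [h2]
  obtain ⟨n, rfl⟩ : ∃ n, r = n + 1 := ⟨r - 1, by omega⟩
  rw [Nat.add_sub_cancel, pow_succ]
  field_simp
  ring

/-- the element of order `r t` -/
theorem exists_bad [Finite F] (hr : r.Prime) (hr2 : r ≠ 2) (hr0 : (r : F) ≠ 0) {t : ℕ} (ht : t.Prime) (htr : t ≠ r) (htq : t ∣ Nat.card F - 1) :
    ∃ w : SLr r F, orderOf w = r * t := by
  haveI : Fact t.Prime := ⟨ht⟩
  haveI : Fact r.Prime := ⟨hr⟩
  have hodd := hr.odd_of_ne_two hr2
  rw [← Nat.card_units] at htq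
  obtain ⟨a, ha⟩ := exists_prime_orderOf_dvd_card' t htq
  have hat : a ^ t = 1 := by rw [← ha, pow_orderOf_eq_one]
  have hdz : (Y r (a : F) (((a ^ (r - 1))⁻¹ : Fˣ) : F)).det = 1 := by
    rw [Y_det hr.pos hr0 a.ne_zero, ← Units.val_pow_eq_pow_val, Units.mul_inv]
  obtain ⟨z, hz⟩ : ∃ z : SLr r F, sm z = Y r (a : F) (((a ^ (r - 1))⁻¹ : Fˣ) : F) := ⟨⟨_, hdz⟩, rfl⟩
  have hdg : (mm 1 (fun _ : Fin r => (1 : F))).det = 1 := by
    rw [det_mm hodd, Finset.prod_const_one]
  obtain ⟨g, hg⟩ : ∃ g : SLr r F, sm g = mm 1 (fun _ : Fin r => (1 : F)) := ⟨⟨_, hdg⟩, rfl⟩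
  have h10 : (1 : Fin r) ≠ 0 := by
    intro h10
    have h11 := congrArg Fin.val h10
    rw [val_one hr.one_lt] at h11
    exact one_ne_zero h11
  have hgS : Sh 1 g := ⟨fun _ => 1, hg⟩
  have hzo : orderOf z = t := by
    apply orderOf_eq_prime
    · apply sm_inj
      rw [sm_pow, hz, Y_pow hr0, ← Units.val_pow_eq_pow_val, ← Units.val_pow_eq_pow_val, hat, inv_pow, ← pow_mul, mul_comm (r - 1), pow_mul,
        hat, one_pow, inv_one, sm_one, Units.val_one, Y_one]
    · intro h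
      rw [h, sm_one] at hz
      have h1 := congrFun (congrFun hz 0) 1
      have h2 := congrFun (congrFun hz 0) 0
      rw [Y_apply, Matrix.one_apply, if_neg (fun h3 => h10 h3.symm), if_neg (fun h3 => h10 h3.symm), zero_add] at h1
      rw [Y_apply, Matrix.one_apply, if_pos rfl, if_pos rfl, ← h1, add_zero] at h2
      have h3 : a = 1 := Units.ext h2.symm
      rw [h3, orderOf_one] at ha
      exact ht.one_lt.ne ha
  have hgo : orderOf g = r := by
    apply orderOf_eq_prime (pow_of_shift hr hr2 hgS h10)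
    intro h
    rw [h] at hgS
    exact h10 (hgS.unique sh_one)
  have hc : Commute g z := by
    apply sm_inj
    rw [sm_mul, sm_mul, hg, hz]
    ext i j
    rw [Matrix.mul_apply, Finset.sum_eq_single (i + 1)]
    · rw [mul_mm_apply, mm_apply, if_pos rfl, one_mul, mul_one, Y_apply, Y_apply]
      congr 1
      by_cases h : i + 1 = j
      · rw [if_pos h, if_pos (by rw [← h, add_sub_cancel_right])]
      · rw [if_neg h, if_neg (fun h2 => h (by rw [h2, sub_add_cancel]))]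
    · intro m _ hm
      rw [mm_apply, if_neg hm, zero_mul]
    · intro h
      exact absurd (Finset.mem_univ _) h
  refine ⟨g * z, ?_⟩
  rw [hc.orderOf_mul_eq_mul_orderOf_of_coprime, hgo, hzo]
  rw [hgo, hzo]
  exact (Nat.coprime_primes hr ht).mpr (fun h => htr h.symm)

theorem no_order [Finite F] (hr : r.Prime) (hr2 : r ≠ 2) (hrF : ¬ r ∣ Nat.card F - 1) {t : ℕ} (ht : t.Prime) {y : SLr r F}
    (hy : y ∈ Mon (⊤ : Subgroup Fˣ)) (ho : orderOf y = r * t) : False := by
  obtain ⟨k, hk⟩ := Sh.of_mem hy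
  by_cases hk0 : k = 0
  · subst hk0
    obtain ⟨d, hd⟩ := hk
    have h1 : y ^ Nat.card Fˣ = 1 := by
      apply sm_inj
      rw [sm_pow_Dg hd, sm_one, ← mm_one]
      congr 1
      ext i
      rw [pow_card_eq_one']
      rfl
    have h2 : r * t ∣ Nat.card F - 1 := by
      rw [← ho, ← Nat.card_units]
      exact orderOf_dvd_of_pow_eq_one h1
    exact hrF ((Dvd.intro _ rfl).trans h2)
  · have h1 := pow_of_shift hr hr2 hk hk0
    have h2 : r * t ∣ r * 1 := by
      rw [← ho, mul_one]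
      exact orderOf_dvd_of_pow_eq_one h1
    have h3 := Nat.dvd_of_mul_dvd_mul_left hr.pos h2
    exact ht.one_lt.ne' (Nat.dvd_one.mp h3)

/-- `SL_r(q₀)` has a Hall subgroup but is not a `D_π`-group -/
theorem not_dpi_SLr [Finite F] (hr : r.Prime) (hr2 : r ≠ 2) {π : Set ℕ} (hrπ : r ∈ π)
    (hτ : ∀ t ∈ π, t.Prime → t ≠ r → t ∣ Nat.card (SLr r F) → r < t ∧ t ∣ Nat.card F - 1)
    (hr0 : (r : F) ≠ 0) (hrq : ¬ r ∣ Nat.card F) (h1 : ∀ i, 0 < i → i < r - 1 → ¬ r ∣ Nat.card F ^ i - 1)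
    (h2 : ¬ r ^ 2 ∣ Nat.card F ^ (r - 1) - 1) (hex : ∃ t ∈ π, t.Prime ∧ t ≠ r ∧ t ∣ Nat.card F - 1) :
    EPi π (SLr r F) ∧ ¬ DPi π (SLr r F) := by
  have hH := hall_small hr hr2 hrπ hτ hrq h1 h2
  refine ⟨⟨_, hH⟩, fun h => ?_⟩
  obtain ⟨t, htπ, ht, htr, htF⟩ := hex
  obtain ⟨w, hw⟩ := exists_bad hr hr2 hr0 ht htr htF
  have hL : PiSubgroup π (Subgroup.zpowers w) := by
    show PiNumber _ _
    rw [Nat.card_zpowers, hw]
    refine PiNumber.mul ?_ ?_
    · intro u hu hd
      rw [(Nat.prime_dvd_prime_iff_eq hu hr).mp hd]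
      exact hrπ
    · intro u hu hd
      rw [(Nat.prime_dvd_prime_iff_eq hu ht).mp hd]
      exact htπ
  obtain ⟨g, hg⟩ := h.cover hH hL
  have h3 := hg (Subgroup.mem_zpowers w)
  rw [mem_cj] at h3
  obtain ⟨k, hk⟩ := Sh.of_mem h3
  have hrF : ¬ r ∣ Nat.card F - 1 := by
    have h4 := h1 1 one_pos (by have := hr.two_le; omega)
    rwa [pow_one] at h4
  refine no_order hr hr2 hrF ht hk.mem ?_
  have h6 := MulEquiv.orderOf_eq (MulAut.conj g⁻¹) w
  rw [MulAut.conj_apply, inv_inv] at h6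
  exact h6.trans hw

end Pool.Agent.H32.HallR
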