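import Pool.Agent.H32.HallR.IA

/-!
# HallR IB: embeddings of `SL_r(q₀)`; the exceptions
-/

set_option autoImplicit false

open Matrix

namespace Pool.Agent.H32.HallR

open Pool.Agent.H32.HallD

/-- the embedding -/
theorem exists_embedding {r : ℕ} (hr : r.Prime) {F₀ F : Type} [Field F₀] [Field F] [Finite F₀] (f : F₀ →+* F) (hrF : ¬ r ∣ Nat.card F₀ - 1) :
    ∃ ψ : SLr r F₀ →* ProjectiveSpecialLinearGroup (Fin r) F, Function.Injective ψ := by
  haveI : NeZero r := ⟨hr.ne_zero⟩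
  refine ⟨(QuotientGroup.mk' (Subgroup.center (SpecialLinearGroup (Fin r) F))).comp (SpecialLinearGroup.map f), ?_⟩
  rw [injective_iff_map_eq_one]
  intro A hA
  have h1 : SpecialLinearGroup.map f A ∈ Subgroup.center (SpecialLinearGroup (Fin r) F) := by
    rw [← QuotientGroup.eq_one_iff]
    exact hA
  obtain ⟨c, hc, hcA⟩ := (Matrix.SpecialLinearGroup.mem_center_iff).mp h1
  rw [Fintype.card_fin] at hc
  have hent : ∀ i j, f (sm A i j) = if i = j then c else 0 := by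
    intro i j
    have h2 := congrFun (congrFun hcA i) j
    rw [Matrix.scalar_apply, Matrix.diagonal_apply] at h2
    exact h2.symm
  have hoff : ∀ i j, i ≠ j → sm A i j = 0 := by
    intro i j hij
    have h2 := hent i j
    rw [if_neg hij] at h2
    exact f.injective (by rw [h2, map_zero])
  have hdiag : ∀ i, sm A i i = sm A 0 0 := by
    intro i
    apply f.injective
    rw [hent, hent, if_pos rfl, if_pos rfl]
  have hc0 : f (sm A 0 0) = c := by rw [hent, if_pos rfl]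
  have hpow : (sm A 0 0) ^ r = 1 := by
    apply f.injective
    rw [map_pow, hc0, hc, map_one]
  have hne : sm A 0 0 ≠ 0 := by
    intro h
    rw [h, zero_pow hr.ne_zero] at hpow
    exact zero_ne_one hpow
  obtain ⟨u, hu⟩ : ∃ u : F₀ˣ, (u : F₀) = sm A 0 0 := ⟨Units.mk0 _ hne, rfl⟩
  have hur : u ^ r = 1 := by
    apply Units.ext
    rw [Units.val_pow_eq_pow_val, hu, hpow, Units.val_one]
  have hone : u = 1 := by
    have h2 : orderOf u ∣ Nat.gcd r (Nat.card F₀ - 1) := by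
      apply Nat.dvd_gcd (orderOf_dvd_of_pow_eq_one hur)
      rw [← Nat.card_units]
      exact orderOf_dvd_natCard _
    have h4 : Nat.gcd r (Nat.card F₀ - 1) = 1 := (Nat.Prime.coprime_iff_not_dvd hr).mpr hrF
    rw [h4, Nat.dvd_one, orderOf_eq_one_iff] at h2
    exact h2
  apply sm_inj
  rw [sm_one]
  ext i j
  by_cases h : i = j
  · subst h
    rw [hdiag, ← hu, hone, Matrix.one_apply_eq]
    rfl
  · rw [hoff i j h, Matrix.one_apply_ne h]

/-- the characteristic -/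
theorem cast_ne_zero {r : ℕ} (hr : r.Prime) {F : Type} [Field F] [Finite F] (h : ¬ r ∣ Nat.card F) : (r : F) ≠ 0 := by
  intro h0
  obtain ⟨p, hp⟩ := CharP.exists F
  haveI : Fintype F := Fintype.ofFinite F
  obtain ⟨m, hpp, hm⟩ := FiniteField.card F p
  have h1 : p ∣ r := (CharP.cast_eq_zero_iff F p r).mp h0
  have h2 := (Nat.prime_dvd_prime_iff_eq hpp hr).mp h1
  apply h
  rw [Nat.card_eq_fintype_card, hm, ← h2]
  exact dvd_pow_self p m.pos.ne'

/-- no group which contains `SL_r(q₀)` has the property -/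
theorem not_star {r : ℕ} (hr : r.Prime) (hr2 : r ≠ 2) {π : Set ℕ} (hrπ : r ∈ π) {F₀ : Type} [Field F₀] [Finite F₀]
    (hrq : ¬ r ∣ Nat.card F₀) (h1 : ∀ i, 0 < i → i < r - 1 → ¬ r ∣ Nat.card F₀ ^ i - 1) (h2 : ¬ r ^ 2 ∣ Nat.card F₀ ^ (r - 1) - 1)
    (hτ : ∀ t ∈ π, t.Prime → t ≠ r → t ∣ Nat.card (SLr r F₀) → r < t ∧ t ∣ Nat.card F₀ - 1)
    (hex : ∃ t ∈ π, t.Prime ∧ t ≠ r ∧ t ∣ Nat.card F₀ - 1) {G : Type*} [Group G] [Finite G] (ψ : SLr r F₀ →* G) (hψ : Function.Injective ψ) :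
    ¬ Star π G := by
  haveI : NeZero r := ⟨hr.ne_zero⟩
  intro h
  obtain ⟨h3, h4⟩ := not_dpi_SLr hr hr2 hrπ hτ (cast_ne_zero hr hrq) hrq h1 h2 hex
  have e : SLr r F₀ ≃* ψ.range := MonoidHom.ofInjective hψ
  exact h4 ((h.2 _ (h3.equiv e)).equiv e.symm)

end Pool.Agent.H32.HallR

namespace Pool.Agent.H32.HallR

open Pool.Agent.H32.HallD

/-- the exceptions -/
theorem exceptionsR {r : ℕ} (hr : r.Prime) (hr2 : r ≠ 2) {π : Set ℕ} (hrπ : r ∈ π) {F₀ F : Type} [Field F₀] [Finite F₀] [Field F] [Finite F]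
    (f : F₀ →+* F) (hrF : r ∣ Nat.card F - 1) (hord : ∀ i, 0 < i → i < r - 1 → ¬ r ∣ Nat.card F₀ ^ i - 1)
    (hsq : ¬ r ^ 2 ∣ Nat.card F₀ ^ (r - 1) - 1)
    (hτ : ∀ t ∈ π, t.Prime → t ≠ r → t ∣ Nat.card (Matrix.ProjectiveSpecialLinearGroup (Fin r) F) → r < t ∧ t ∣ Nat.card F - 1)
    (hτ₀ : ∀ t ∈ π, t.Prime → t ≠ r → t ∣ Nat.card (Matrix.SpecialLinearGroup (Fin r) F₀) → t ∣ Nat.card F₀ - 1)
    (hex : ∃ t ∈ π, t.Prime ∧ t ≠ r ∧ t ∣ Nat.card F₀ - 1) :
    DPi π (Matrix.ProjectiveSpecialLinearGroup (Fin r) F) ∧ ¬ Star π (Matrix.ProjectiveSpecialLinearGroup (Fin r) F) := by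
  haveI : NeZero r := ⟨hr.ne_zero⟩
  refine ⟨dpi_PSL hr hr2 hrπ hτ hrF, ?_⟩
  have hrF₀ : ¬ r ∣ Nat.card F₀ - 1 := by
    have h4 := hord 1 one_pos (by have := hr.two_le; omega)
    rwa [pow_one] at h4
  obtain ⟨ψ, hψ⟩ := exists_embedding hr f hrF₀
  have hrq : ¬ r ∣ Nat.card F₀ := by
    intro h
    have h0 : (r : F₀) = 0 := by
      obtain ⟨p, hp⟩ := CharP.exists F₀
      haveI : Fintype F₀ := Fintype.ofFinite F₀
      obtain ⟨m, hpp, hm⟩ := FiniteField.card F₀ p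
      rw [Nat.card_eq_fintype_card, hm] at h
      have h2 := (Nat.prime_dvd_prime_iff_eq hr hpp).mp (hr.dvd_of_dvd_pow h)
      rw [h2]
      exact CharP.cast_eq_zero F₀ p
    have h1 : (r : F) = 0 := by
      rw [← map_natCast f, h0, map_zero]
    haveI : Fintype F := Fintype.ofFinite F
    have h2 : ((Nat.card F : ℕ) : F) = 0 := by
      rw [Nat.card_eq_fintype_card]
      exact FiniteField.cast_card_eq_zero F
    obtain ⟨k, hk⟩ := hrF
    have hq : 1 < Nat.card F := Finite.one_lt_card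
    have h3 : Nat.card F = r * k + 1 := by omega
    rw [h3, Nat.cast_add, Nat.cast_mul, h1, zero_mul, zero_add, Nat.cast_one] at h2
    exact one_ne_zero h2
  refine not_star hr hr2 hrπ hrq hord hsq ?_ hex ψ hψ
  intro t ht htp htr hd
  refine ⟨(hτ t ht htp htr (hd.trans ?_)).1, hτ₀ t ht htp htr hd⟩
  exact Subgroup.card_dvd_of_injective ψ hψ

end Pool.Agent.H32.HallR
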